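import Mathlib

set_option autoImplicit false

namespace Pool.Agent.Helper281.Gr

open Set Filter Topology MeasureTheory Pointwise

/-- A decreasing sequence of open symmetric neighbourhoods of `1` forming a base, with
`U (n+1) * U (n+1) ⊆ U n`. -/
structure IsNb {G : Type} [Group G] [TopologicalSpace G] (U : ℕ → Set G) : Prop where
  isOpen : ∀ n, IsOpen (U n)
  one_mem : ∀ n, (1 : G) ∈ U n
  inv_mem : ∀ n g, g ∈ U n → g⁻¹ ∈ U n
  mul_mem : ∀ n g h, g ∈ U (n + 1) → h ∈ U (n + 1) → g * h ∈ U n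
  basis : ∀ V ∈ 𝓝 (1 : G), ∃ n, U n ⊆ V

section nb

variable {G : Type} [Group G] [TopologicalSpace G]

theorem IsNb.anti {U : ℕ → Set G} (hU : IsNb U) {m n : ℕ} (h : m ≤ n) : U n ⊆ U m := by
  induction h with
  | refl => exact subset_rfl
  | step _ ih =>
    intro g hg
    exact ih (by simpa using hU.mul_mem _ g 1 hg (hU.one_mem _))

theorem exists_isNb [IsTopologicalGroup G] [FirstCountableTopology G] :
    ∃ U : ℕ → Set G, IsNb U := by
  obtain ⟨u, hu, u_mul⟩ := IsTopologicalGroup.exists_antitone_basis_nhds_one G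
  refine ⟨fun n => interior (u n) ∩ (interior (u n))⁻¹, ?_, ?_, ?_, ?_, ?_⟩
  · intro n
    exact isOpen_interior.inter isOpen_interior.inv
  · intro n
    have h1 : (1 : G) ∈ interior (u n) := mem_interior_iff_mem_nhds.2 (hu.1.mem_of_mem trivial)
    exact ⟨h1, by simpa using h1⟩
  · rintro n g ⟨h1, h2⟩
    exact ⟨h2, by simpa using h1⟩
  · rintro n g h ⟨h1, h2⟩ ⟨h3, h4⟩
    have hop : IsOpen (interior (u (n + 1)) * interior (u (n + 1))) := isOpen_interior.mul_left
    have hsub : interior (u (n + 1)) * interior (u (n + 1)) ⊆ interior (u n) := by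
      apply interior_maximal _ hop
      exact (Set.mul_subset_mul interior_subset interior_subset).trans (u_mul n)
    refine ⟨hsub (Set.mul_mem_mul h1 h3), ?_⟩
    have : (g * h)⁻¹ ∈ interior (u n) := by
      rw [mul_inv_rev]
      exact hsub (Set.mul_mem_mul (by simpa using h4) (by simpa using h2))
    simpa using this
  · intro V hV
    obtain ⟨n, hn⟩ := hu.1.mem_iff.1 hV
    exact ⟨n, (inter_subset_left.trans interior_subset).trans hn.2⟩

theorem IsNb.exists_mul_subset [IsTopologicalGroup G] {U : ℕ → Set G} (hU : IsNb U) {V : Set G}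
    (hV : IsOpen V) {h : G} (hh : h ∈ V) : ∃ m, ∀ g ∈ U m, g * h ∈ V := by
  have : (fun g : G => g * h) ⁻¹' V ∈ 𝓝 (1 : G) := by
    apply (hV.preimage (continuous_mul_const h)).mem_nhds
    simpa using hh
  obtain ⟨m, hm⟩ := hU.basis _ this
  exact ⟨m, fun g hg => hm hg⟩

end nb

section gen

variable {G : Type} [TopologicalSpace G]

theorem freq_of_open [BaireSpace G] {V : Set G} (hV : IsOpen V) (hne : V.Nonempty) :
    ∃ᶠ g in residual G, g ∈ V := by
  rw [Filter.Frequently]
  intro h
  have hd := dense_of_mem_residual h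
  obtain ⟨x, hx, hx2⟩ := hd.inter_open_nonempty V hV hne
  exact hx2 hx

/-- Localisation by the property of Baire. -/
theorem freq_open [BaireSpace G] [MeasurableSpace G] [BorelSpace G] {p : G → Prop}
    (hp : MeasurableSet {g | p g}) {V : Set G} (hV : IsOpen V)
    (h : ∃ᶠ g in residual G, g ∈ V ∧ p g) :
    ∃ W, IsOpen W ∧ W.Nonempty ∧ W ⊆ V ∧ ∀ᶠ g in residual G, g ∈ W → p g := by
  obtain ⟨u, hu, hpu⟩ := hp.residualEq_isOpen
  refine ⟨V ∩ u, hV.inter hu, ?_, inter_subset_left, ?_⟩
  · have h2 : ∃ᶠ g in residual G, g ∈ V ∩ u := by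
      refine (h.and_eventually hpu).mono ?_
      rintro g ⟨⟨h1, h2⟩, h3⟩
      refine ⟨h1, ?_⟩
      have h3' : (p g) = (u g) := h3
      have : u g := h3' ▸ h2
      exact this
    obtain ⟨g, hg⟩ := h2.exists
    exact ⟨g, hg⟩
  · filter_upwards [hpu] with g hg hgV
    have h3' : (p g) = (u g) := hg
    rw [h3']
    exact hgV.2

theorem gen_and_freq {V W : Set G} {p : G → Prop}
    (h1 : ∀ᶠ g in residual G, g ∈ V → p g) (hWV : W ⊆ V) : ∀ᶠ g in residual G, g ∈ W → p g :=
  h1.mono fun g hg hgW => hg (hWV hgW)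

end gen

section trans

variable {G : Type} [Group G] [TopologicalSpace G] [IsTopologicalGroup G]

theorem gen_mul_right (h : G) {p : G → Prop} (hp : ∀ᶠ g in residual G, p g) :
    ∀ᶠ g in residual G, p (g * h) :=
  (tendsto_residual_of_isOpenMap (f := fun g : G => g * h) (continuous_mul_const h)
    (Homeomorph.mulRight h).isOpenMap).eventually hp

theorem gen_mul_right_iff (h : G) {p : G → Prop} :
    (∀ᶠ g in residual G, p (g * h)) ↔ ∀ᶠ g in residual G, p g := by
  refine ⟨fun hp => ?_, gen_mul_right h⟩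
  have := gen_mul_right h⁻¹ hp
  simpa using this

theorem freq_mul_right_iff (h : G) {p : G → Prop} :
    (∃ᶠ g in residual G, p (g * h)) ↔ ∃ᶠ g in residual G, p g := by
  simp only [Filter.Frequently, gen_mul_right_iff h (p := fun g => ¬ p g)]

end trans

end Pool.Agent.Helper281.Gr
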