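import Pool.Agent.Helper281.Gr.Basic

set_option autoImplicit false

namespace Pool.Agent.Helper281.Gr

open Set Filter Topology MeasureTheory Pointwise


section act

variable {G X : Type} [Group G] [TopologicalSpace G] [IsTopologicalGroup G] [PolishSpace G]
  [MeasurableSpace G] [BorelSpace G] [MeasurableSpace X] [MulAction G X]

/-- `hgen` is a lemma proved elsewhere. -/
theorem bit_lemma
    (hgen : ∀ P : X → G → Prop, MeasurableSet {p : X × G | P p.1 p.2} → ∀ V : Set G, IsOpen V →
      MeasurableSet {x : X | ∀ᶠ g in residual G, g ∈ V → P x g})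
    {U : ℕ → Set G} (hU : IsNb U)
    (hact : Measurable fun p : G × X => p.1 • p.2)
    (B : ℕ → Set X) (hB : ∀ i, MeasurableSet (B i))
    (hsep : ∀ x y : X, (∀ i, x ∈ B i ↔ y ∈ B i) → x = y)
    (ν : X → ℕ) (hν : Measurable ν) :
    ∃ (c : X → ℕ) (M : Set X), Measurable c ∧ MeasurableSet M ∧
      ∀ w : X, (∀ᶠ g in residual G, g • w ≠ w) →
        (∃ m, ∀ᶠ g in residual G, g ∈ U m →
          ν (g • w) = ν w ∧ c (g • w) = c w ∧ (g • w ∈ M ↔ w ∈ M)) →
        (∃ᶠ g in residual G, g ∈ U (ν w) ∧ ν (g • w) = ν w ∧ g • w ∈ M) ∧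
        (∃ᶠ g in residual G, g ∈ U (ν w) ∧ ν (g • w) = ν w ∧ g • w ∉ M) := by
  classical
  have hact' : Measurable fun p : X × G => p.2 • p.1 := hact.comp measurable_swap
  have hmeas : ∀ P : X → G → Prop, MeasurableSet {p : X × G | P p.1 p.2} →
      MeasurableSet {w : X | ∀ᶠ g in residual G, g ∈ U (ν w) → ν (g • w) = ν w → P w g} := by
    intro P hP
    have hP' : MeasurableSet {p : X × G | ν (p.2 • p.1) = ν p.1 → P p.1 p.2} := by
      have h1 : MeasurableSet {p : X × G | ν (p.2 • p.1) = ν p.1} :=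
        measurableSet_eq_fun (hν.comp hact') (hν.comp measurable_fst)
      have h2 : {p : X × G | ν (p.2 • p.1) = ν p.1 → P p.1 p.2} =
          {p : X × G | ν (p.2 • p.1) = ν p.1}ᶜ ∪ {p : X × G | P p.1 p.2} := by
        ext p
        simp only [mem_setOf_eq, mem_union, mem_compl_iff]
        tauto
      rw [h2]
      exact h1.compl.union hP
    have h3 : {w : X | ∀ᶠ g in residual G, g ∈ U (ν w) → ν (g • w) = ν w → P w g} =
        ⋃ k : ℕ, ({w | ν w = k} ∩ {w | ∀ᶠ g in residual G, g ∈ U k →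
          (ν (g • w) = ν w → P w g)}) := by
      ext w
      simp only [mem_setOf_eq, mem_iUnion, mem_inter_iff]
      constructor
      · intro h
        exact ⟨ν w, rfl, h⟩
      · rintro ⟨k, rfl, h⟩
        exact h
    rw [h3]
    exact MeasurableSet.iUnion fun k => (hν (measurableSet_singleton k)).inter
      (hgen (fun w g => ν (g • w) = ν w → P w g) hP' _ (hU.isOpen k))
  obtain ⟨both, both_def⟩ : ∃ both : ℕ → X → Prop, ∀ i w, both i w ↔
    ((∃ᶠ g in residual G, g ∈ U (ν w) ∧ ν (g • w) = ν w ∧ g • w ∈ B i) ∧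
    (∃ᶠ g in residual G, g ∈ U (ν w) ∧ ν (g • w) = ν w ∧ g • w ∉ B i)) :=
    ⟨fun i w => _, fun i w => Iff.rfl⟩
  have hboth : ∀ i, MeasurableSet {w | both i w} := by
    intro i
    have hB' : MeasurableSet {p : X × G | p.2 • p.1 ∈ B i} := hact' (hB i)
    have h1 := (hmeas (fun w g => g • w ∉ B i) hB'.compl).compl
    have h2 := (hmeas (fun w g => g • w ∈ B i) hB').compl
    convert h1.inter h2 using 1
    ext w
    simp only [both_def, Filter.Frequently, mem_inter_iff, mem_compl_iff, mem_setOf_eq, not_and,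
      not_not]
  have hN0 : ∀ w : X, ∃ i, both i w ∨ ∀ j, ¬ both j w := by
    intro w
    by_cases h : ∃ i, both i w
    · obtain ⟨i, hi⟩ := h
      exact ⟨i, Or.inl hi⟩
    · push Not at h
      exact ⟨0, Or.inr h⟩
  obtain ⟨N, hNm, hN⟩ : ∃ N : X → ℕ, Measurable N ∧ ∀ w, both (N w) w ∨ ∀ j, ¬ both j w := by
    refine ⟨fun w => Nat.find (hN0 w), measurable_find hN0 ?_, fun w => Nat.find_spec (hN0 w)⟩
    intro k
    have : {x : X | both k x ∨ ∀ j, ¬ both j x} = {x | both k x} ∪ ⋂ j, {x | both j x}ᶜ := by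
      ext x
      simp
    rw [this]
    exact (hboth k).union (MeasurableSet.iInter fun j => (hboth j).compl)
  obtain ⟨c, hc_def⟩ : ∃ c : X → ℕ, ∀ w, c w = if both (N w) w then
      2 * N w + 1 + (if w ∈ B (N w) then 1 else 0) else 0 := ⟨fun w => _, fun w => rfl⟩
  have hcm : Measurable c := by
    have h1 : ∀ k : ℕ, Measurable fun w : X => (if both k w then
      2 * k + 1 + (if w ∈ B k then 1 else 0) else 0 : ℕ) := by
      intro k
      refine Measurable.ite (hboth k) ?_ measurable_const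
      exact measurable_const.add (Measurable.ite (hB k) measurable_const measurable_const)
    have h2 : Measurable fun p : ℕ × X => (if both p.1 p.2 then
      2 * p.1 + 1 + (if p.2 ∈ B p.1 then 1 else 0) else 0 : ℕ) :=
      measurable_from_prod_countable_right fun k => h1 k
    have h3 : c = (fun p : ℕ × X => (if both p.1 p.2 then
      2 * p.1 + 1 + (if p.2 ∈ B p.1 then 1 else 0) else 0 : ℕ)) ∘ (fun w => (N w, w)) := by
      funext w
      exact hc_def w
    rw [h3]
    exact h2.comp (hNm.prodMk measurable_id)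
  have hcode : ∀ v w : X, both (N w) w → c v = c w → (v ∈ B (N w) ↔ w ∈ B (N w)) := by
    intro v w hw hvw
    rw [hc_def v, hc_def w, if_pos hw] at hvw
    by_cases hv : both (N v) v
    · rw [if_pos hv] at hvw
      have hNN : N v = N w := by
        split_ifs at hvw <;> omega
      rw [hNN] at hvw
      by_cases h1 : v ∈ B (N w) <;> by_cases h2 : w ∈ B (N w)
      · exact iff_of_true h1 h2
      · rw [if_pos h1, if_neg h2] at hvw; omega
      · rw [if_neg h1, if_pos h2] at hvw; omega
      · exact iff_of_false h1 h2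
    · rw [if_neg hv] at hvw
      split_ifs at hvw <;> omega
  obtain ⟨T, hT0, hTs⟩ : ∃ T : ℕ → Set X, T 0 = ∅ ∧ ∀ k, T (k + 1) = T k ∪
      {w | c w = k ∧ ∀ᶠ g in residual G, g ∈ U (ν w) → ν (g • w) = ν w → g • w ∉ T k} :=
    ⟨fun k => Nat.rec ∅ (fun k Tk => Tk ∪ {w | c w = k ∧ ∀ᶠ g in residual G,
      g ∈ U (ν w) → ν (g • w) = ν w → g • w ∉ Tk}) k, rfl, fun k => rfl⟩
  have hTm : ∀ k, MeasurableSet (T k) := by
    intro k
    induction k with
    | zero => rw [hT0]; exact MeasurableSet.empty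
    | succ k ih =>
      rw [hTs]
      refine ih.union ?_
      have h1 : MeasurableSet {p : X × G | p.2 • p.1 ∉ T k} := (hact' ih).compl
      exact (hcm (measurableSet_singleton k)).inter (hmeas (fun w g => g • w ∉ T k) h1)
  have hTmono : Monotone T := monotone_nat_of_le_succ fun k => by
    rw [hTs]
    exact subset_union_left
  have hTlt : ∀ k v, v ∈ T k → c v < k := by
    intro k
    induction k with
    | zero => intro v hv; rw [hT0] at hv; exact absurd hv (notMem_empty _)
    | succ k ih =>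
      intro v hv
      rw [hTs] at hv
      rcases hv with hv | hv
      · have := ih v hv
        omega
      · have := hv.1
        omega
  have hTc : ∀ k v, v ∈ T k → v ∈ T (c v + 1) := by
    intro k
    induction k with
    | zero => intro v hv; rw [hT0] at hv; exact absurd hv (notMem_empty _)
    | succ k ih =>
      intro v hv
      have hv' := hv
      rw [hTs] at hv
      rcases hv with hv | hv
      · exact ih v hv
      · rw [hv.1]
        exact hv'
  obtain ⟨M, hM_def⟩ : ∃ M : Set X, M = ⋃ k, T k := ⟨_, rfl⟩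
  have hTM : ∀ k v, v ∈ T k ↔ v ∈ M ∧ c v < k := by
    intro k v
    constructor
    · intro hv
      refine ⟨?_, hTlt k v hv⟩
      rw [hM_def]
      exact mem_iUnion.2 ⟨k, hv⟩
    · rintro ⟨hv, hlt⟩
      rw [hM_def] at hv
      obtain ⟨j, hj⟩ := mem_iUnion.1 hv
      exact hTmono hlt (hTc j v hj)
  have key : ∀ w : X, w ∈ M ↔ ∀ᶠ g in residual G, g ∈ U (ν w) → ν (g • w) = ν w →
      ¬ (g • w ∈ M ∧ c (g • w) < c w) := by
    intro w
    have h1 : w ∈ M ↔ w ∈ T (c w + 1) := by
      rw [hTM]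
      constructor
      · intro h; exact ⟨h, Nat.lt_succ_self _⟩
      · intro h; exact h.1
    rw [h1, hTs]
    constructor
    · rintro (h | h)
      · exact absurd (hTlt _ _ h) (lt_irrefl _)
      · refine h.2.mono ?_
        intro g hg a b
        rw [← hTM]
        exact hg a b
    · intro h
      right
      refine ⟨rfl, ?_⟩
      refine h.mono ?_
      intro g hg a b
      rw [hTM]
      exact hg a b
  have hMm : MeasurableSet M := by
    rw [hM_def]
    exact MeasurableSet.iUnion hTm
  refine ⟨c, M, hcm, hMm, ?_⟩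
  rintro w hstab ⟨m0, hm0⟩
  obtain ⟨m, hmν, hm⟩ : ∃ m, ν w ≤ m ∧ ∀ᶠ g in residual G, g ∈ U m →
      ν (g • w) = ν w ∧ c (g • w) = c w ∧ (g • w ∈ M ↔ w ∈ M) :=
    ⟨max m0 (ν w), le_max_right _ _, hm0.mono fun g hg hgm => hg (hU.anti (le_max_left _ _) hgm)⟩
  have hsub : U m ⊆ U (ν w) := hU.anti hmν
  have hb : ∃ i, both i w := by
    by_contra hne
    push Not at hne
    have h1 : ∀ i, ∃ b : Prop, ∀ᶠ g in residual G, g ∈ U m → (g • w ∈ B i ↔ b) := by
      intro i
      have h := hne i
      rw [both_def, not_and_or] at h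
      rcases h with h | h
      · refine ⟨False, ?_⟩
        rw [Filter.not_frequently] at h
        filter_upwards [h, hm] with g hg hgm hgU
        simp only [iff_false]
        exact fun hB => hg ⟨hsub hgU, (hgm hgU).1, hB⟩
      · refine ⟨True, ?_⟩
        rw [Filter.not_frequently] at h
        filter_upwards [h, hm] with g hg hgm hgU
        simp only [iff_true]
        by_contra hB
        exact hg ⟨hsub hgU, (hgm hgU).1, hB⟩
    choose b hb using h1
    have h2 : ∀ᶠ g in residual G, ∀ i, g ∈ U m → (g • w ∈ B i ↔ b i) :=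
      eventually_countable_forall.2 hb
    obtain ⟨g0, hg0U, hg0⟩ :=
      ((freq_of_open (hU.isOpen m) ⟨1, hU.one_mem m⟩).and_eventually h2).exists
    have h3 : ∀ᶠ g in residual G, g ∈ U m → g • w = g0 • w := by
      filter_upwards [h2] with g hg hgU
      apply hsep
      intro i
      rw [hg i hgU, hg0 i hg0U]
    have h4 : ∀ᶠ g in residual G, g • w ≠ g0 • w := by
      have h5 := (tendsto_residual_of_isOpenMap (f := fun g : G => g0⁻¹ * g)
        (continuous_const_mul g0⁻¹) (Homeomorph.mulLeft g0⁻¹).isOpenMap).eventually hstab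
      filter_upwards [h5] with g hg h
      apply hg
      rw [mul_smul, h, inv_smul_smul]
    obtain ⟨g, hgU, hg3, hg4⟩ :=
      ((freq_of_open (hU.isOpen m) ⟨1, hU.one_mem m⟩).and_eventually (h3.and h4)).exists
    exact hg4 (hg3 hgU)
  have hbN : both (N w) w := by
    rcases hN w with h | h
    · exact h
    · obtain ⟨i, hi⟩ := hb
      exact absurd hi (h i)
  have hc : ∃ᶠ g in residual G, g ∈ U (ν w) ∧ ν (g • w) = ν w ∧ c (g • w) ≠ c w := by
    intro hcon
    have hbit : ∀ᶠ g in residual G, g ∈ U (ν w) → ν (g • w) = ν w →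
        (g • w ∈ B (N w) ↔ w ∈ B (N w)) := by
      filter_upwards [hcon] with g hg h1 h2
      have h3 : c (g • w) = c w := by
        by_contra h
        exact hg ⟨h1, h2, h⟩
      exact hcode _ _ hbN h3
    have hbN' := (both_def _ _).1 hbN
    by_cases hw : w ∈ B (N w)
    · obtain ⟨g, ⟨h1, h2, h3⟩, h4⟩ := (hbN'.2.and_eventually hbit).exists
      exact h3 ((h4 h1 h2).2 hw)
    · obtain ⟨g, ⟨h1, h2, h3⟩, h4⟩ := (hbN'.1.and_eventually hbit).exists
      exact hw ((h4 h1 h2).1 h3)
  by_cases hwM : w ∈ M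
  · refine ⟨?_, ?_⟩
    · refine ((freq_of_open (hU.isOpen m) ⟨1, hU.one_mem m⟩).and_eventually hm).mono ?_
      rintro g ⟨hg, hgm⟩
      exact ⟨hsub hg, (hgm hg).1, (hgm hg).2.2.2 hwM⟩
    · by_contra hcon
      rw [Filter.not_frequently] at hcon
      have hkey := (key w).1 hwM
      obtain ⟨g, ⟨h1, h2, h3⟩, h4, h5⟩ := (hc.and_eventually (hcon.and hkey)).exists
      have hgM : g • w ∈ M := by
        by_contra h
        exact h4 ⟨h1, h2, h⟩
      have hgt : c w < c (g • w) := by
        have h7 := h5 h1 h2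
        have h6 : ¬ c (g • w) < c w := fun h => h7 ⟨hgM, h⟩
        omega
      have hkey' := (key (g • w)).1 hgM
      have hginv : g⁻¹ ∈ U (ν w) := hU.inv_mem _ _ h1
      obtain ⟨m', hm'⟩ := hU.exists_mul_subset (hU.isOpen (ν w)) hginv
      have hfr : ∃ᶠ u in residual G, u ∈ U (max m m') :=
        freq_of_open (hU.isOpen _) ⟨1, hU.one_mem _⟩
      have hk2 := gen_mul_right g⁻¹ hkey'
      obtain ⟨u, hu, hu1, hu2⟩ := (hfr.and_eventually (hk2.and hm)).exists
      have huM : u ∈ U m := hU.anti (le_max_left _ _) hu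
      have hum' : u ∈ U m' := hU.anti (le_max_right _ _) hu
      have e : (u * g⁻¹) • (g • w) = u • w := by rw [mul_smul, inv_smul_smul]
      obtain ⟨g1, g2, g3⟩ := hu2 huM
      rw [e, h2] at hu1
      exact hu1 (hm' u hum') g1 ⟨g3.2 hwM, by rw [g2]; exact hgt⟩
  · refine ⟨?_, ?_⟩
    · have h8 := (key w).not.1 hwM
      rw [Filter.not_eventually] at h8
      refine h8.mono ?_
      intro g hg
      push Not at hg
      exact ⟨hg.1, hg.2.1, hg.2.2.1⟩
    · refine ((freq_of_open (hU.isOpen m) ⟨1, hU.one_mem m⟩).and_eventually hm).mono ?_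
      rintro g ⟨hg, hgm⟩
      exact ⟨hsub hg, (hgm hg).1, fun h => hwM ((hgm hg).2.2.1 h)⟩

end act

end Pool.Agent.Helper281.Gr
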