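import Pool.Agent.Helper281.Gr.Basic

set_option autoImplicit false

namespace Pool.Agent.Helper281.Gr

open Set Filter Topology MeasureTheory Pointwise


section act

variable {G X : Type} [Group G] [TopologicalSpace G] [IsTopologicalGroup G] [PolishSpace G]
  [MeasurableSpace G] [BorelSpace G] [MeasurableSpace X] [MulAction G X]

/-- For a measurable integer valued function `S`, generic points of an orbit are points near
which `S` is generically constant with the right value. -/
theorem eventually_good {U : ℕ → Set G} (hU : IsNb U)
    (hact : Measurable fun p : G × X => p.1 • p.2) {S : X → ℕ} (hS : Measurable S) (x : X) :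
    ∀ᶠ h in residual G, ∃ m, ∀ᶠ g in residual G, g ∈ U m → S (g • h • x) = S (h • x) := by
  have hm : Measurable (fun h : G => S (h • x)) :=
    hS.comp (hact.comp measurable_prodMk_right)
  have hA : ∀ c : ℕ, ∃ u : Set G, IsOpen u ∧ ∀ᶠ h in residual G, (S (h • x) = c ↔ h ∈ u) := by
    intro c
    have hmeas : MeasurableSet {h : G | S (h • x) = c} := hm (measurableSet_singleton c)
    obtain ⟨u, hu, hpu⟩ := hmeas.residualEq_isOpen
    refine ⟨u, hu, ?_⟩
    filter_upwards [hpu] with h hh
    have h3 : (S (h • x) = c) = (u h) := hh
    exact Iff.of_eq h3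
  choose O hO hAO using hA
  have hall : ∀ᶠ h in residual G, ∀ c, (S (h • x) = c ↔ h ∈ O c) :=
    eventually_countable_forall.mpr hAO
  filter_upwards [hall] with h hh
  obtain ⟨m, hm'⟩ := hU.exists_mul_subset (hO (S (h • x))) ((hh _).mp rfl)
  refine ⟨m, ?_⟩
  filter_upwards [gen_mul_right h hall] with g hg hgU
  rw [← mul_smul]
  exact (hg _).mpr (hm' g hgU)

end act

end Pool.Agent.Helper281.Gr

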