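import Pool.Agent.Helper281.Gr.Run

set_option autoImplicit false

namespace Pool.Agent.Helper281.Gr

open Set Filter Topology MeasureTheory Pointwise

section sc

variable {G X : Type} [Group G] [TopologicalSpace G] [IsTopologicalGroup G] [PolishSpace G]
  [MeasurableSpace G] [BorelSpace G] [MeasurableSpace X] [MulAction G X]

/-- `sc` is a function such that index sequences moving by `U (sc k _)` at stage `k` converge. -/
theorem exists_sc {U : ℕ → Set G} (hU : IsNb U) (q : ℕ → G) :
    ∃ sc : ℕ → ℕ → ℕ, ∀ j : ℕ → ℕ,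
      (∀ k, q (j (k + 1)) * (q (j k))⁻¹ ∈ U (sc k (j k))) →
      ∃ a, Tendsto (fun k => q (j k)) atTop (𝓝 a) := by
  letI := TopologicalSpace.upgradeIsCompletelyMetrizable G
  have key : ∀ k j : ℕ, ∃ p, ∀ u ∈ U p, dist (u * q j) (q j) ≤ (1 / 2 : ℝ) ^ k := by
    intro k j
    have h1 : ContinuousAt (fun u : G => dist (u * q j) (q j)) 1 := by fun_prop
    have h2 : {u : G | dist (u * q j) (q j) ≤ (1 / 2 : ℝ) ^ k} ∈ 𝓝 (1 : G) := by
      have h0 : dist ((1 : G) * q j) (q j) < (1 / 2 : ℝ) ^ k := by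
        rw [one_mul, dist_self]; positivity
      exact h1 (Iic_mem_nhds h0)
    obtain ⟨p, hp⟩ := hU.basis _ h2
    exact ⟨p, fun u hu => hp hu⟩
  choose sc hsc using key
  refine ⟨sc, fun j hj => ?_⟩
  have hdist : ∀ k, dist (q (j k)) (q (j (k + 1))) ≤ 1 * (1 / 2 : ℝ) ^ k := by
    intro k
    have := hsc k (j k) _ (hj k)
    rw [dist_comm, one_mul]
    simpa using this
  have hc : CauchySeq (fun k => q (j k)) :=
    cauchySeq_of_le_geometric (1 / 2) 1 (by norm_num) hdist
  exact cauchySeq_tendsto_of_complete hc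

theorem dec_unique {U : ℕ → Set G} (hU : IsNb U) {r : ℕ → X → ℕ} {p N N' : ℕ} {w : X}
    (h1 : dec U r p N w) (h2 : dec U r p N' w) : N = N' := by
  obtain ⟨m, hm⟩ := h1
  obtain ⟨m', hm'⟩ := h2
  have hf := freq_of_open (hU.isOpen (max m m')) ⟨1, hU.one_mem _⟩
  obtain ⟨g, hg, hg1, hg2⟩ := (hf.and_eventually (hm.and hm')).exists
  rw [← hg1 (hU.anti (le_max_left _ _) hg), ← hg2 (hU.anti (le_max_right _ _) hg)]

theorem rd_eq {U : ℕ → Set G} (hU : IsNb U) {r : ℕ → X → ℕ} {p N : ℕ} {w : X}
    (h : dec U r p N w) : rd U r p w = N := by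
  have h2 : dec U r p (rd U r p w) w := Nat.sInf_mem (s := {N | dec U r p N w}) ⟨N, h⟩
  exact dec_unique hU h2 h

end sc

section mf

variable {Z S T : Type} [MeasurableSpace Z]

/-- Measurability of a map into a discrete set. -/
def MF (f : Z → S) : Prop := ∀ s, MeasurableSet {z | f z = s}

theorem MF.const (s : S) : MF (fun _ : Z => s) := by
  intro t
  by_cases h : s = t
  · simp [h]
  · simp [h]

theorem MF.comp2 [Countable S] {f : Z → S} (hf : MF f) {g : S → Z → T} (hg : ∀ s, MF (g s)) :
    MF (fun z => g (f z) z) := by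
  intro t
  have : {z | g (f z) z = t} = ⋃ s, ({z | f z = s} ∩ {z | g s z = t}) := by
    ext z
    simp
  rw [this]
  exact MeasurableSet.iUnion fun s => (hf s).inter (hg s t)

theorem MF.map [Countable S] {f : Z → S} (hf : MF f) (g : S → T) : MF (fun z => g (f z)) :=
  hf.comp2 (g := fun s _ => g s) fun s => MF.const (g s)

theorem mf_sInf {A : Z → ℕ → Prop} (hA : ∀ n, MeasurableSet {z | A z n}) :
    MF (fun z => sInf {n | A z n}) := by
  classical
  intro n
  have h1 : {z | sInf {n | A z n} = n} =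
      ({z | A z n} ∩ ⋂ m, ⋂ (_ : m < n), {z | A z m}ᶜ) ∪
        ((if n = 0 then univ else ∅) ∩ ⋂ m, {z | A z m}ᶜ) := by
    ext z
    simp only [mem_setOf_eq, mem_union, mem_inter_iff, mem_iInter, mem_compl_iff]
    constructor
    · intro h
      by_cases hne : {n | A z n}.Nonempty
      · left
        have h2 := Nat.sInf_mem hne
        rw [h] at h2
        refine ⟨h2, fun m hm hAm => ?_⟩
        have := Nat.sInf_le (s := {n | A z n}) hAm
        omega
      · right
        rw [not_nonempty_iff_eq_empty] at hne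
        rw [hne, Nat.sInf_empty] at h
        refine ⟨by simp [← h], fun m hm => ?_⟩
        have : m ∈ {n | A z n} := hm
        rw [hne] at this
        exact this
    · rintro (⟨h1, h2⟩ | ⟨h1, h2⟩)
      · apply le_antisymm (Nat.sInf_le h1)
        by_contra hlt
        push Not at hlt
        have hm := Nat.sInf_mem (s := {n | A z n}) ⟨n, h1⟩
        exact h2 _ hlt hm
      · have h3 : {n | A z n} = ∅ := by
          ext m
          simpa using h2 m
        rw [h3, Nat.sInf_empty]
        by_contra hn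
        rw [if_neg (by omega)] at h1
        exact h1
  rw [h1]
  refine ((hA n).inter (MeasurableSet.iInter fun m => MeasurableSet.iInter fun _ =>
    (hA m).compl)).union (MeasurableSet.inter ?_ (MeasurableSet.iInter fun m => (hA m).compl))
  split_ifs <;> simp

theorem MF.measurable {W : Type} [MeasurableSpace W] [Countable S] {f : Z → S} (hf : MF f)
    (g : S → W) : Measurable (fun z => g (f z)) := by
  intro A _
  have : (fun z => g (f z)) ⁻¹' A = ⋃ s, ⋃ (_ : g s ∈ A), {z | f z = s} := by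
    ext z
    simp
  rw [this]
  exact MeasurableSet.iUnion fun s => MeasurableSet.iUnion fun _ => hf s

end mf

section limit

variable {G X Z : Type} [Group G] [TopologicalSpace G] [PolishSpace G]
  [MeasurableSpace G] [BorelSpace G] [TopologicalSpace X] [PolishSpace X] [MeasurableSpace X]
  [BorelSpace X] [MulAction G X] [MeasurableSpace Z]

theorem measurableSet_limit (hact : Measurable fun p : G × X => p.1 • p.2)
    {f : ℕ → Z → G} (hf : ∀ k, Measurable (f k)) {g1 g2 : Z → X} (h1 : Measurable g1)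
    (h2 : Measurable g2) :
    MeasurableSet {z | ∃ a, Tendsto (fun k => f k z) atTop (𝓝 a) ∧ a • g1 z = g2 z} := by
  classical
  have hC : MeasurableSet {z | ∃ a, Tendsto (fun k => f k z) atTop (𝓝 a)} :=
    measurableSet_exists_tendsto hf
  set C := {z | ∃ a, Tendsto (fun k => f k z) atTop (𝓝 a)} with hCdef
  let f' : ℕ → Z → G := fun k z => if z ∈ C then f k z else 1
  have hf' : ∀ k, Measurable (f' k) := fun k => Measurable.ite hC (hf k) measurable_const
  let F : Z → G := fun z => if h : z ∈ C then h.choose else 1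
  have hF : Measurable F := by
    refine measurable_of_tendsto_metrizable hf' ?_
    rw [tendsto_pi_nhds]
    intro z
    by_cases h : z ∈ C
    · have h3 := h.choose_spec
      simpa [f', F, h] using h3
    · simp [f', F, h]
  have hset : {z | ∃ a, Tendsto (fun k => f k z) atTop (𝓝 a) ∧ a • g1 z = g2 z} =
      C ∩ {z | F z • g1 z = g2 z} := by
    ext z
    constructor
    · rintro ⟨a, ha, hz⟩
      have hzC : z ∈ C := ⟨a, ha⟩
      refine ⟨hzC, ?_⟩
      have : F z = a := by
        simp only [F, dif_pos hzC]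
        exact tendsto_nhds_unique hzC.choose_spec ha
      simpa [this] using hz
    · rintro ⟨hzC, hz⟩
      refine ⟨hzC.choose, hzC.choose_spec, ?_⟩
      have : F z = hzC.choose := by simp only [F, dif_pos hzC]
      simpa [this] using hz
  rw [hset]
  exact hC.inter (measurableSet_eq_fun (hact.comp (hF.prodMk h1)) h2)

end limit

section meas

variable {G X : Type} [Group G] [TopologicalSpace G] [IsTopologicalGroup G] [PolishSpace G]
  [MeasurableSpace G] [BorelSpace G] [MeasurableSpace X] [MulAction G X]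

theorem meas_gen_at
    (hgen : ∀ P : X → G → Prop, MeasurableSet {p : X × G | P p.1 p.2} → ∀ V : Set G, IsOpen V →
      MeasurableSet {x : X | ∀ᶠ g in residual G, g ∈ V → P x g})
    (hact : Measurable fun p : G × X => p.1 • p.2)
    {S : X → ℕ} (hS : Measurable S) {V : Set G} (hV : IsOpen V) (h : G) (N : ℕ) :
    MeasurableSet {x : X | ∀ᶠ g in residual G, g ∈ V → S (g • h • x) = N} := by
  refine hgen (fun x g => S (g • h • x) = N) ?_ V hV
  have h1 : Measurable (fun p : X × G => S (p.2 • h • p.1)) := by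
    refine hS.comp (hact.comp (measurable_snd.prodMk ?_))
    exact hact.comp (measurable_const.prodMk measurable_fst)
  exact h1 (measurableSet_singleton N)

theorem mf_dec
    (hgen : ∀ P : X → G → Prop, MeasurableSet {p : X × G | P p.1 p.2} → ∀ V : Set G, IsOpen V →
      MeasurableSet {x : X | ∀ᶠ g in residual G, g ∈ V → P x g})
    {U : ℕ → Set G} (hU : IsNb U)
    (hact : Measurable fun p : G × X => p.1 • p.2)
    {r : ℕ → X → ℕ} (hr : ∀ p, Measurable (r p)) (h : G) (p N : ℕ) :
    MeasurableSet {x : X | dec U r p N (h • x)} := by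
  have : {x : X | dec U r p N (h • x)} =
      ⋃ m, {x : X | ∀ᶠ g in residual G, g ∈ U m → r p (g • h • x) = N} := by
    ext x
    simp [dec]
  rw [this]
  exact MeasurableSet.iUnion fun m => meas_gen_at hgen hact (hr p) (hU.isOpen m) h N

theorem mf_rd
    (hgen : ∀ P : X → G → Prop, MeasurableSet {p : X × G | P p.1 p.2} → ∀ V : Set G, IsOpen V →
      MeasurableSet {x : X | ∀ᶠ g in residual G, g ∈ V → P x g})
    {U : ℕ → Set G} (hU : IsNb U)
    (hact : Measurable fun p : G × X => p.1 • p.2)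
    {r : ℕ → X → ℕ} (hr : ∀ p, Measurable (r p)) (p : ℕ) : MF (fun x : X => rd U r p x) := by
  refine mf_sInf fun N => ?_
  simpa using mf_dec hgen hU hact hr 1 p N

theorem MF.comp_meas {Z W S : Type} [MeasurableSpace Z] [MeasurableSpace W] {f : W → S}
    (hf : MF f) {g : Z → W} (hg : Measurable g) : MF (fun z => f (g z)) :=
  fun s => hg (hf s)

theorem mf_pOf
    (hgen : ∀ P : X → G → Prop, MeasurableSet {p : X × G | P p.1 p.2} → ∀ V : Set G, IsOpen V →
      MeasurableSet {x : X | ∀ᶠ g in residual G, g ∈ V → P x g})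
    {U : ℕ → Set G} (hU : IsNb U)
    (hact : Measurable fun p : G × X => p.1 • p.2)
    {r : ℕ → X → ℕ} (hr : ∀ p, Measurable (r p)) (q : ℕ → G) (sc : ℕ → ℕ → ℕ)
    (s : List (ℕ × ℕ) × ℕ) : MF (fun x : X => pOf U q sc r x s) := by
  refine mf_sInf fun p => ?_
  have : {x : X | okp U q sc r x s.1 s.2 p} =
      ({_x | 0 < p ∧ sc s.1.length s.2 ≤ p ∧ ∀ e ∈ s.1, e.1 < p} : Set X) ∩
        ⋂ e : ℕ × ℕ, ⋂ (_ : e ∈ s.1),
          {x : X | ∀ᶠ g in residual G, g ∈ U (p - 1) → r e.1 (g • q s.2 • x) = e.2} := by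
    ext x
    simp only [okp, mem_setOf_eq, mem_inter_iff, mem_iInter]
    tauto
  rw [this]
  exact (MeasurableSet.const _).inter (MeasurableSet.iInter fun e => MeasurableSet.iInter fun _ =>
    meas_gen_at hgen hact (hr e.1) (hU.isOpen _) (q s.2) e.2)

theorem mf_jOf
    (hgen : ∀ P : X → G → Prop, MeasurableSet {p : X × G | P p.1 p.2} → ∀ V : Set G, IsOpen V →
      MeasurableSet {x : X | ∀ᶠ g in residual G, g ∈ V → P x g})
    {U : ℕ → Set G} (hU : IsNb U)
    (hact : Measurable fun p : G × X => p.1 • p.2)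
    {r : ℕ → X → ℕ} (hr : ∀ p, Measurable (r p)) (q : ℕ → G) (p N j : ℕ) :
    MF (fun x : X => jOf U q r x p N j) := by
  refine mf_sInf fun j' => ?_
  have : {x : X | q j' * (q j)⁻¹ ∈ U (p + 1) ∧ dec U r p N (q j' • x)} =
      ({_x | q j' * (q j)⁻¹ ∈ U (p + 1)} : Set X) ∩ {x : X | dec U r p N (q j' • x)} := by
    ext x
    simp
  rw [this]
  exact (MeasurableSet.const _).inter (mf_dec hgen hU hact hr (q j') p N)

theorem mf_run
    (hgen : ∀ P : X → G → Prop, MeasurableSet {p : X × G | P p.1 p.2} → ∀ V : Set G, IsOpen V →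
      MeasurableSet {x : X | ∀ᶠ g in residual G, g ∈ V → P x g})
    {U : ℕ → Set G} (hU : IsNb U)
    (hact : Measurable fun p : G × X => p.1 • p.2)
    {r : ℕ → X → ℕ} (hr : ∀ p, Measurable (r p)) (q : ℕ → G) (sc : ℕ → ℕ → ℕ) (k : ℕ) :
    MF (fun z : X × X => run U q sc r z.1 (fun _ p => rd U r p z.2) k) := by
  induction k with
  | zero => exact MF.const _
  | succ k ih =>
    have h1 : ∀ s : List (ℕ × ℕ) × ℕ, MF (fun z : X × X => pOf U q sc r z.1 s) := fun s =>
      (mf_pOf hgen hU hact hr q sc s).comp_meas measurable_fst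
    have h2 : ∀ p, MF (fun z : X × X => rd U r p z.2) := fun p =>
      (mf_rd hgen hU hact hr p).comp_meas measurable_snd
    have h3 : ∀ p N j, MF (fun z : X × X => jOf U q r z.1 p N j) := fun p N j =>
      (mf_jOf hgen hU hact hr q p N j).comp_meas measurable_fst
    have key : ∀ s : List (ℕ × ℕ) × ℕ, MF (fun z : X × X =>
        (((pOf U q sc r z.1 s, rd U r (pOf U q sc r z.1 s) z.2) :: s.1,
          jOf U q r z.1 (pOf U q sc r z.1 s) (rd U r (pOf U q sc r z.1 s) z.2) s.2) :
          List (ℕ × ℕ) × ℕ)) := by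
      intro s
      refine (h1 s).comp2 (g := fun p z => (((p, rd U r p z.2) :: s.1,
        jOf U q r z.1 p (rd U r p z.2) s.2) : List (ℕ × ℕ) × ℕ)) fun p => ?_
      refine (h2 p).comp2 (g := fun N z => (((p, N) :: s.1,
        jOf U q r z.1 p N s.2) : List (ℕ × ℕ) × ℕ)) fun N => ?_
      exact (h3 p N s.2).map (fun j => (((p, N) :: s.1, j) : List (ℕ × ℕ) × ℕ))
    exact ih.comp2 (g := fun s z => (((pOf U q sc r z.1 s, rd U r (pOf U q sc r z.1 s) z.2) :: s.1,
          jOf U q r z.1 (pOf U q sc r z.1 s) (rd U r (pOf U q sc r z.1 s) z.2) s.2) :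
          List (ℕ × ℕ) × ℕ)) key

/-- The scales at which the first point is read in the two sided protocol. -/
noncomputable def P2 (U : ℕ → Set G) (r : ℕ → X → ℕ) (p0 : ℕ) (z : X × X) : ℕ → ℕ
  | 0 => p0
  | k + 1 => rd U r (Nat.unpair (rd U r (P2 U r p0 z k) z.1)).1 z.2

theorem mf_P2
    (hgen : ∀ P : X → G → Prop, MeasurableSet {p : X × G | P p.1 p.2} → ∀ V : Set G, IsOpen V →
      MeasurableSet {x : X | ∀ᶠ g in residual G, g ∈ V → P x g})
    {U : ℕ → Set G} (hU : IsNb U)
    (hact : Measurable fun p : G × X => p.1 • p.2)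
    {r : ℕ → X → ℕ} (hr : ∀ p, Measurable (r p)) (p0 k : ℕ) :
    MF (fun z : X × X => P2 U r p0 z k) := by
  induction k with
  | zero => exact MF.const _
  | succ k ih =>
    have h2 : ∀ p, MF (fun z : X × X => rd U r p z.2) := fun p =>
      (mf_rd hgen hU hact hr p).comp_meas measurable_snd
    have h1 : ∀ p, MF (fun z : X × X => rd U r p z.1) := fun p =>
      (mf_rd hgen hU hact hr p).comp_meas measurable_fst
    refine ih.comp2 (g := fun p z => rd U r (Nat.unpair (rd U r p z.1)).1 z.2) fun p => ?_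
    exact (h1 p).comp2 (g := fun N z => rd U r (Nat.unpair N).1 z.2) fun N => h2 _

theorem mf_J2
    (hgen : ∀ P : X → G → Prop, MeasurableSet {p : X × G | P p.1 p.2} → ∀ V : Set G, IsOpen V →
      MeasurableSet {x : X | ∀ᶠ g in residual G, g ∈ V → P x g})
    {U : ℕ → Set G} (hU : IsNb U)
    (hact : Measurable fun p : G × X => p.1 • p.2)
    {r : ℕ → X → ℕ} (hr : ∀ p, Measurable (r p)) (p0 k : ℕ) :
    MF (fun z : X × X => (Nat.unpair (rd U r (P2 U r p0 z k) z.1)).2) := by
  have h1 : ∀ p, MF (fun z : X × X => rd U r p z.1) := fun p =>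
      (mf_rd hgen hU hact hr p).comp_meas measurable_fst
  refine (mf_P2 hgen hU hact hr p0 k).comp2
    (g := fun p z => (Nat.unpair (rd U r p z.1)).2) fun p => ?_
  exact (h1 p).map (fun N => (Nat.unpair N).2)

end meas


end Pool.Agent.Helper281.Gr
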