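import Pool.Agent.Helper281.Gr.Basic

set_option autoImplicit false

namespace Pool.Agent.Helper281.Gr

open Set Filter Topology MeasureTheory Pointwise


section auxm

theorem measurable_sInf_nat {X : Type} [MeasurableSpace X] (B : ℕ → Set X)
    (hB : ∀ m, MeasurableSet (B m)) : Measurable fun w => sInf {m | w ∈ B m} := by
  refine measurable_to_countable' fun k => ?_
  have h1 : (fun w => sInf {m | w ∈ B m}) ⁻¹' {k} =
      (B k ∩ ⋂ j, ⋂ (_ : j < k), (B j)ᶜ) ∪ (if k = 0 then ⋂ j, (B j)ᶜ else ∅) := by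
    ext w
    rw [mem_preimage, mem_singleton_iff]
    by_cases hne : {m | w ∈ B m}.Nonempty
    · constructor
      · intro h
        left
        subst h
        refine ⟨Nat.sInf_mem hne, ?_⟩
        rw [mem_iInter₂]
        intro j hj hjB
        exact Nat.notMem_of_lt_sInf hj hjB
      · rintro (⟨h2, h3⟩ | h2)
        · rw [mem_iInter₂] at h3
          apply le_antisymm (Nat.sInf_le h2)
          by_contra hlt
          exact h3 _ (not_le.mp hlt) (Nat.sInf_mem hne)
        · exfalso
          split_ifs at h2 with hk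
          · obtain ⟨m, hm⟩ := hne
            exact (mem_iInter.mp h2 m) hm
          · exact h2
    · have hemp : {m | w ∈ B m} = ∅ := not_nonempty_iff_eq_empty.mp hne
      have hno : ∀ m, w ∉ B m := fun m hm => hne ⟨m, hm⟩
      rw [hemp, Nat.sInf_empty]
      constructor
      · intro h
        subst h
        right
        rw [if_pos rfl]
        exact mem_iInter.mpr fun m => hno m
      · rintro (⟨h2, h3⟩ | h2)
        · exact absurd h2 (hno k)
        · split_ifs at h2 with hk
          · exact hk.symm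
          · exact absurd h2 (notMem_empty _)
  rw [h1]
  refine ((hB k).inter ?_).union ?_
  · exact MeasurableSet.iInter fun j => MeasurableSet.iInter fun _ => (hB j).compl
  · split_ifs
    · exact MeasurableSet.iInter fun j => (hB j).compl
    · exact MeasurableSet.empty

end auxm

section act

variable {G X : Type} [Group G] [TopologicalSpace G] [IsTopologicalGroup G] [PolishSpace G]
  [MeasurableSpace G] [BorelSpace G] [MeasurableSpace X] [MulAction G X]

/-- `hgen`, `hgood`, `hbit` are lemmas proved elsewhere. -/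
theorem number_lemma
    {U : ℕ → Set G} (hU : IsNb U)
    (hact : Measurable fun p : G × X => p.1 • p.2)
    (hgen : ∀ P : X → G → Prop, MeasurableSet {p : X × G | P p.1 p.2} → ∀ V : Set G, IsOpen V →
      MeasurableSet {x : X | ∀ᶠ g in residual G, g ∈ V → P x g})
    (hgood : ∀ S : X → ℕ, Measurable S → ∀ x : X,
      ∀ᶠ h in residual G, ∃ m, ∀ᶠ g in residual G, g ∈ U m → S (g • h • x) = S (h • x))
    (hbit : ∀ ν : X → ℕ, Measurable ν → ∃ (c : X → ℕ) (M : Set X),
      Measurable c ∧ MeasurableSet M ∧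
      ∀ w : X, (∀ᶠ g in residual G, g • w ≠ w) →
        (∃ m, ∀ᶠ g in residual G, g ∈ U m →
          ν (g • w) = ν w ∧ c (g • w) = c w ∧ (g • w ∈ M ↔ w ∈ M)) →
        (∃ᶠ g in residual G, g ∈ U (ν w) ∧ ν (g • w) = ν w ∧ g • w ∈ M) ∧
        (∃ᶠ g in residual G, g ∈ U (ν w) ∧ ν (g • w) = ν w ∧ g • w ∉ M))
    (n : ℕ) :
    ∃ r : X → ℕ, Measurable r ∧ ∀ w : X, (∀ᶠ g in residual G, g • w ≠ w) →
      ∀ N, ∃ᶠ g in residual G, g ∈ U n ∧ r (g • w) = N := by
  classical
  choose! c M hc hM hcM using hbit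
  let md : (X → ℕ) → X → ℕ := fun S w =>
    sInf {m | w ∈ {w | ∃ k, ∀ᶠ f in residual G, f ∈ U m → S (f • w) = k}}
  have hmd : ∀ S, Measurable S → Measurable (md S) := by
    intro S hS
    apply measurable_sInf_nat
    intro m
    have h1 : {w : X | ∃ k, ∀ᶠ f in residual G, f ∈ U m → S (f • w) = k} =
        ⋃ k, {w : X | ∀ᶠ f in residual G, f ∈ U m → S (f • w) = k} := by
      ext w
      simp
    rw [h1]
    refine MeasurableSet.iUnion fun k => ?_
    refine hgen (fun w g => S (g • w) = k) ?_ (U m) (hU.isOpen m)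
    have h2 : Measurable fun p : X × G => S (p.2 • p.1) :=
      hS.comp (hact.comp measurable_swap)
    exact h2 (measurableSet_singleton k)
  let nuf : ℕ → (X → ℕ) → X → ℕ := fun l S w => max (n + 2 + l) (md S w)
  have hnuf : ∀ l S, Measurable S → Measurable (nuf l S) := by
    intro l S hS
    exact (measurable_of_countable (fun k => max (n + 2 + l) k)).comp (hmd S hS)
  obtain ⟨Sl, hS0, hSs⟩ : ∃ Sl : ℕ → X → ℕ, Sl 0 = (fun _ => 0) ∧
      ∀ l, Sl (l + 1) = fun w => 2 * Sl l w + (if w ∈ M (nuf l (Sl l)) then 1 else 0) :=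
    ⟨fun l => Nat.rec (fun _ => 0)
      (fun l S w => 2 * S w + (if w ∈ M (nuf l S) then 1 else 0)) l, rfl, fun _ => rfl⟩
  obtain ⟨nu, hnu⟩ : ∃ nu : ℕ → X → ℕ, ∀ l, nu l = nuf l (Sl l) := ⟨fun l => nuf l (Sl l), fun _ => rfl⟩
  obtain ⟨M', hM'⟩ : ∃ M' : ℕ → Set X, ∀ l, M' l = M (nu l) := ⟨fun l => M (nu l), fun _ => rfl⟩
  have hSs' : ∀ l w, Sl (l + 1) w = 2 * Sl l w + (if w ∈ M' l then 1 else 0) := by
    intro l w
    rw [hSs, hM', hnu]
  have hSm : ∀ l, Measurable (Sl l) := by
    intro l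
    induction l with
    | zero => rw [hS0]; exact measurable_const
    | succ l ih =>
      rw [hSs]
      have h1 : Measurable (fun w => if w ∈ M (nuf l (Sl l)) then (1:ℕ) else 0) :=
        Measurable.ite (hM _ (hnuf l _ ih)) measurable_const measurable_const
      exact (measurable_of_countable (fun p : ℕ × ℕ => 2 * p.1 + p.2)).comp (ih.prodMk h1)
  have hnum : ∀ l, Measurable (nu l) := fun l => by rw [hnu]; exact hnuf l _ (hSm l)
  have hM'm : ∀ l, MeasurableSet (M' l) := fun l => by rw [hM']; exact hM _ (hnum l)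
  have hinj : ∀ l v v', Sl l v = Sl l v' → ∀ i < l, (v ∈ M' i ↔ v' ∈ M' i) := by
    intro l
    induction l with
    | zero => intro v v' _ i hi; omega
    | succ l ih =>
      intro v v' h i hi
      rw [hSs', hSs'] at h
      have h1 : Sl l v = Sl l v' ∧ (v ∈ M' l ↔ v' ∈ M' l) := by
        by_cases ha : v ∈ M' l
        · by_cases hb : v' ∈ M' l
          · rw [if_pos ha, if_pos hb] at h
            exact ⟨by omega, by simp [ha, hb]⟩
          · rw [if_pos ha, if_neg hb] at h
            omega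
        · by_cases hb : v' ∈ M' l
          · rw [if_neg ha, if_pos hb] at h
            omega
          · rw [if_neg ha, if_neg hb] at h
            exact ⟨by omega, by simp [ha, hb]⟩
      rcases Nat.lt_succ_iff_lt_or_eq.mp hi with h2 | h2
      · exact ih v v' h1.1 i h2
      · rw [h2]; exact h1.2
  let r : X → ℕ := fun w => sInf {m | w ∈ (M' m)ᶜ}
  have hr : Measurable r := measurable_sInf_nat (fun m => (M' m)ᶜ) (fun m => (hM'm m).compl)
  refine ⟨r, hr, ?_⟩
  intro w hw N
  -- goodness
  let Gd : (X → ℕ) → X → Prop := fun F v => ∃ m, ∀ᶠ g in residual G, g ∈ U m → F (g • v) = F v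
  let ind : ℕ → X → ℕ := fun l w => if w ∈ M' l then 1 else 0
  have hind : ∀ l, Measurable (ind l) := fun l =>
    Measurable.ite (hM'm l) measurable_const measurable_const
  have hindiff : ∀ l v v', ind l v = ind l v' → (v ∈ M' l ↔ v' ∈ M' l) := by
    intro l v v' h
    simp only [ind] at h
    by_cases ha : v ∈ M' l
    · by_cases hb : v' ∈ M' l
      · simp [ha, hb]
      · rw [if_pos ha, if_neg hb] at h; omega
    · by_cases hb : v' ∈ M' l
      · rw [if_neg ha, if_pos hb] at h; omega
      · simp [ha, hb]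
  let Good : X → Prop := fun v => (∀ l, Gd (Sl l) v ∧ Gd (nu l) v ∧ Gd (c (nu l)) v ∧ Gd (ind l) v) ∧ Gd r v
  have hGood : ∀ x, ∀ᶠ h in residual G, Good (h • x) := by
    intro x
    have h1 : ∀ᶠ h in residual G, ∀ l, Gd (Sl l) (h • x) ∧ Gd (nu l) (h • x) ∧
        Gd (c (nu l)) (h • x) ∧ Gd (ind l) (h • x) := by
      rw [eventually_countable_forall]
      intro l
      filter_upwards [hgood _ (hSm l) x, hgood _ (hnum l) x, hgood _ (hc _ (hnum l)) x,
        hgood _ (hind l) x] with h h1 h2 h3 h4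
      exact ⟨h1, h2, h3, h4⟩
    filter_upwards [h1, hgood _ hr x] with h h1 h2
    exact ⟨h1, h2⟩
  -- translates of w have meagre stabiliser
  have hstab : ∀ h : G, ∀ᶠ g in residual G, g • (h • w) ≠ h • w := by
    intro h
    have ht : Tendsto (fun g : G => h⁻¹ * g * h) (residual G) (residual G) :=
      tendsto_residual_of_isOpenMap (f := fun g : G => h⁻¹ * g * h) (by fun_prop)
        ((Homeomorph.mulLeft h⁻¹).trans (Homeomorph.mulRight h)).isOpenMap
    filter_upwards [ht.eventually hw] with g hg heq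
    apply hg
    rw [mul_smul, mul_smul, heq, inv_smul_smul]
  -- the induction
  have hmain : ∀ l, l ≤ N + 1 → ∃ g : G, Good (g • w) ∧ (∀ h ∈ U (n + 1 + l), h * g ∈ U n) ∧
      ∀ i < l, (g • w ∈ M' i ↔ i < N) := by
    intro l
    induction l with
    | zero =>
      intro _
      have h1 : ∃ᶠ g in residual G, g ∈ U (n + 1) :=
        freq_of_open (hU.isOpen _) ⟨1, hU.one_mem _⟩
      obtain ⟨g, hg1, hg2⟩ := (h1.and_eventually (hGood w)).exists
      exact ⟨g, hg2, fun h hh => hU.mul_mem n h g hh hg1, fun i hi => absurd hi (by omega)⟩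
    | succ l ih =>
      intro hl
      obtain ⟨gl, hgl1, hgl2, hgl3⟩ := ih (by omega)
      obtain ⟨⟨ms, hms⟩, ⟨m1, hm1⟩, ⟨m2, hm2⟩, ⟨m3, hm3⟩⟩ := hgl1.1 l
      have hbit1 := hcM (nu l) (hnum l) (gl • w) (hstab gl) ⟨max m1 (max m2 m3), by
        filter_upwards [hm1, hm2, hm3] with g h1 h2 h3 hg
        have a1 := hU.anti (le_max_left m1 (max m2 m3)) hg
        have a2 := hU.anti ((le_max_left m2 m3).trans (le_max_right m1 (max m2 m3))) hg
        have a3 := hU.anti ((le_max_right m2 m3).trans (le_max_right m1 (max m2 m3))) hg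
        refine ⟨h1 a1, h2 a2, ?_⟩
        have h4 := hindiff l _ _ (h3 a3)
        rw [hM'] at h4
        exact h4⟩
      have hfreq : ∃ᶠ g in residual G, g ∈ U (nu l (gl • w)) ∧ (g • gl • w ∈ M' l ↔ l < N) := by
        by_cases hlN : l < N
        · refine hbit1.1.mono ?_
          rintro g ⟨h1, h2, h3⟩
          refine ⟨h1, ?_⟩
          rw [hM']
          exact ⟨fun _ => hlN, fun _ => h3⟩
        · refine hbit1.2.mono ?_
          rintro g ⟨h1, h2, h3⟩
          refine ⟨h1, ?_⟩
          rw [hM']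
          exact ⟨fun h => absurd h h3, fun h => absurd h hlN⟩
      -- S is constant near
      have hne : {m | (gl • w) ∈ {w : X | ∃ k, ∀ᶠ f in residual G, f ∈ U m → Sl l (f • w) = k}}.Nonempty :=
        ⟨ms, _, hms⟩
      obtain ⟨k, hk⟩ : ∃ k, ∀ᶠ f in residual G, f ∈ U (md (Sl l) (gl • w)) →
          Sl l (f • gl • w) = k := Nat.sInf_mem hne
      have hkeq : k = Sl l (gl • w) := by
        have h1 : ∃ᶠ g in residual G, g ∈ U (max (md (Sl l) (gl • w)) ms) :=
          freq_of_open (hU.isOpen _) ⟨1, hU.one_mem _⟩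
        obtain ⟨g, hg1, hg2, hg3⟩ := (h1.and_eventually (hk.and hms)).exists
        rw [← hg2 (hU.anti (le_max_left _ _) hg1), hg3 (hU.anti (le_max_right _ _) hg1)]
      obtain ⟨g, ⟨hg1, hg2⟩, hg3, hg4⟩ :=
        (hfreq.and_eventually (hk.and (hGood (gl • w)))).exists
      have hnug : nu l (gl • w) = max (n + 2 + l) (md (Sl l) (gl • w)) := by rw [hnu]
      rw [hnug] at hg1
      have hgmd := hU.anti (le_max_right (n + 2 + l) (md (Sl l) (gl • w))) hg1
      have hgn := hU.anti (le_max_left (n + 2 + l) (md (Sl l) (gl • w))) hg1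
      have hSeq : Sl l (g • gl • w) = Sl l (gl • w) := by rw [hg3 hgmd, hkeq]
      refine ⟨g * gl, ?_, ?_, ?_⟩
      · rw [mul_smul]; exact hg4
      · intro h hh
        rw [← mul_assoc]
        apply hgl2
        apply hU.mul_mem
        · exact hh
        · have e : n + 2 + l = n + 1 + l + 1 := by omega
          rw [← e]
          exact hgn
      · intro i hi
        rw [mul_smul]
        rcases Nat.lt_succ_iff_lt_or_eq.mp hi with h2 | h2
        · rw [hinj l _ _ hSeq i h2]
          exact hgl3 i h2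
        · rw [h2]; exact hg2
  obtain ⟨g, hg1, hg2, hg3⟩ := hmain (N + 1) le_rfl
  have hrN : r (g • w) = N := by
    have hN : N ∈ {m | (g • w) ∈ (M' m)ᶜ} := by
      intro h
      have := (hg3 N (by omega)).mp h
      omega
    apply le_antisymm (Nat.sInf_le hN)
    by_contra hlt
    push Not at hlt
    replace hlt : r (g • w) < N := hlt
    have h1 : (g • w) ∈ (M' (r (g • w)))ᶜ := Nat.sInf_mem ⟨N, hN⟩
    exact h1 ((hg3 _ (by omega)).mpr hlt)
  obtain ⟨m, hm⟩ := hg1.2
  have h1 : ∃ᶠ u in residual G, u ∈ U (max m (n + 1 + (N + 1))) :=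
    freq_of_open (hU.isOpen _) ⟨1, hU.one_mem _⟩
  rw [← freq_mul_right_iff g]
  refine (h1.and_eventually hm).mono ?_
  rintro u ⟨hu1, hu2⟩
  refine ⟨hg2 u (hU.anti (le_max_right _ _) hu1), ?_⟩
  rw [mul_smul, hu2 (hU.anti (le_max_left _ _) hu1), hrN]

end act

end Pool.Agent.Helper281.Gr
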