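import Pool.Agent.Helper281.Gr.Gen
import Pool.Agent.Helper281.Gr.Good
import Pool.Agent.Helper281.Gr.Bit
import Pool.Agent.Helper281.Gr.Num
import Pool.Agent.Helper281.Gr.Meas

set_option autoImplicit false

namespace Pool.Agent.Helper281.Gr

open Set Filter Topology MeasureTheory Pointwise

section proto

variable {G X : Type} [Group G] [TopologicalSpace G] [MulAction G X]

theorem run_congr (U : ℕ → Set G) (q : ℕ → G) (sc : ℕ → ℕ → ℕ) (r : ℕ → X → ℕ) (x : X)
    {F F' : ℕ → ℕ → ℕ}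
    (h : ∀ k, F k (pOf U q sc r x (run U q sc r x F k)) =
      F' k (pOf U q sc r x (run U q sc r x F k))) (k : ℕ) :
    run U q sc r x F' k = run U q sc r x F k := by
  induction k with
  | zero => rfl
  | succ k ih =>
    simp only [run, ih, h k]

/-- Edges from a point to a point coded relative to it. -/
def R1 (U : ℕ → Set G) (q : ℕ → G) (sc : ℕ → ℕ → ℕ) (r : ℕ → X → ℕ) (x z : X) : Prop :=
  ∃ a, Tendsto (fun k => q (run U q sc r x (fun _ p => rd U r p z) k).2) atTop (𝓝 a) ∧ a • x = z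

/-- Edges between two points coding each other. -/
def R2 (U : ℕ → Set G) (q : ℕ → G) (r : ℕ → X → ℕ) (p0 : ℕ) (x z : X) : Prop :=
  ∃ a, Tendsto (fun k => q (Nat.unpair (rd U r (P2 U r p0 (x, z) k) x)).2) atTop (𝓝 a) ∧
    a • x = z

/-- One round of the two sided protocol. -/
noncomputable def stp (U : ℕ → Set G) (q : ℕ → G) (sc : ℕ → ℕ → ℕ) (r : ℕ → X → ℕ)
    (idx : ℕ → ℕ → ℕ → ℕ) (x y : X) (k : ℕ)
    (s : (List (ℕ × ℕ) × ℕ) × (List (ℕ × ℕ) × ℕ)) :
    (List (ℕ × ℕ) × ℕ) × (List (ℕ × ℕ) × ℕ) :=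
  (((pOf U q sc r x s.1, Nat.pair (pOf U q sc r y s.2) (idx k s.1.2 s.2.2)) :: s.1.1,
      jOf U q r x (pOf U q sc r x s.1) (Nat.pair (pOf U q sc r y s.2) (idx k s.1.2 s.2.2)) s.1.2),
    ((pOf U q sc r y s.2,
        pOf U q sc r x ((pOf U q sc r x s.1,
          Nat.pair (pOf U q sc r y s.2) (idx k s.1.2 s.2.2)) :: s.1.1,
      jOf U q r x (pOf U q sc r x s.1)
        (Nat.pair (pOf U q sc r y s.2) (idx k s.1.2 s.2.2)) s.1.2)) :: s.2.1,
      jOf U q r y (pOf U q sc r y s.2)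
        (pOf U q sc r x ((pOf U q sc r x s.1,
          Nat.pair (pOf U q sc r y s.2) (idx k s.1.2 s.2.2)) :: s.1.1,
      jOf U q r x (pOf U q sc r x s.1)
        (Nat.pair (pOf U q sc r y s.2) (idx k s.1.2 s.2.2)) s.1.2)) s.2.2))

noncomputable def stt (U : ℕ → Set G) (q : ℕ → G) (sc : ℕ → ℕ → ℕ) (r : ℕ → X → ℕ)
    (idx : ℕ → ℕ → ℕ → ℕ) (x y : X) : ℕ → (List (ℕ × ℕ) × ℕ) × (List (ℕ × ℕ) × ℕ)
  | 0 => (([], 0), ([], 0))
  | k + 1 => stp U q sc r idx x y k (stt U q sc r idx x y k)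

theorem run_eq_stt1 (U : ℕ → Set G) (q : ℕ → G) (sc : ℕ → ℕ → ℕ) (r : ℕ → X → ℕ)
    (idx : ℕ → ℕ → ℕ → ℕ) (x y : X) (k : ℕ) :
    run U q sc r x (fun k _ => Nat.pair (pOf U q sc r y (stt U q sc r idx x y k).2)
      (idx k (stt U q sc r idx x y k).1.2 (stt U q sc r idx x y k).2.2)) k =
    (stt U q sc r idx x y k).1 := by
  induction k with
  | zero => rfl
  | succ k ih =>
    rw [run, ih]
    rfl

theorem run_eq_stt2 (U : ℕ → Set G) (q : ℕ → G) (sc : ℕ → ℕ → ℕ) (r : ℕ → X → ℕ)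
    (idx : ℕ → ℕ → ℕ → ℕ) (x y : X) (k : ℕ) :
    run U q sc r y (fun k _ => pOf U q sc r x (stt U q sc r idx x y (k + 1)).1) k =
    (stt U q sc r idx x y k).2 := by
  induction k with
  | zero => rfl
  | succ k ih =>
    rw [run, ih]
    rfl

end proto

section conn

variable {G X : Type} [Group G] [TopologicalSpace G] [IsTopologicalGroup G] [PolishSpace G]
  [MeasurableSpace G] [BorelSpace G] [MeasurableSpace X] [MulAction G X]

theorem protocol {U : ℕ → Set G} (hU : IsNb U)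
    (hact : Measurable fun p : G × X => p.1 • p.2)
    {q : ℕ → G} (hq : DenseRange q) {sc : ℕ → ℕ → ℕ}
    (hsc : ∀ j : ℕ → ℕ, (∀ k, q (j (k + 1)) * (q (j k))⁻¹ ∈ U (sc k (j k))) →
      ∃ a, Tendsto (fun k => q (j k)) atTop (𝓝 a))
    {r : ℕ → X → ℕ} (hr : ∀ p, Measurable (r p))
    (hnum : ∀ p, ∀ w : X, (∀ᶠ g in residual G, g • w ≠ w) →
      ∀ N, ∃ᶠ g in residual G, g ∈ U (p + 1) ∧ r p (g • w) = N)
    {x y : X} (hx : ∀ᶠ g in residual G, g • x ≠ x) (hy : ∀ᶠ g in residual G, g • y ≠ y)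
    {g0 : G} (hg0 : g0 • x = y) :
    ∃ p0 z1 z2, R1 U q sc r x z1 ∧ R1 U q sc r y z2 ∧ R2 U q r p0 z1 z2 := by
  letI := TopologicalSpace.upgradeIsCompletelyMetrizable G
  have hidx : ∀ k j j' : ℕ, ∃ i, dist (q j' * g0 * (q j)⁻¹) (q i) < (1 / 2 : ℝ) ^ k := by
    intro k j j'
    exact hq.exists_dist_lt _ (by positivity)
  choose idx hidx using hidx
  set σ := stt U q sc r idx x y with hσ
  set N : ℕ → ℕ := fun k => Nat.pair (pOf U q sc r y (σ k).2) (idx k (σ k).1.2 (σ k).2.2) with hN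
  set N' : ℕ → ℕ := fun k => pOf U q sc r x (σ (k + 1)).1 with hN'
  have h1 : ∀ k, run U q sc r x (fun k _ => N k) k = (σ k).1 :=
    fun k => run_eq_stt1 U q sc r idx x y k
  have h2 : ∀ k, run U q sc r y (fun k _ => N' k) k = (σ k).2 :=
    fun k => run_eq_stt2 U q sc r idx x y k
  obtain ⟨a, ha, hda⟩ := run_lemma hU hact hq hsc hr hnum hx N
  obtain ⟨b, hb, hdb⟩ := run_lemma hU hact hq hsc hr hnum hy N'
  simp only [h1] at ha hda
  simp only [h2] at hb hdb
  have hra : ∀ k, rd U r (pOf U q sc r x (σ k).1) (a • x) = N k := fun k => rd_eq hU (hda k)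
  have hrb : ∀ k, rd U r (pOf U q sc r y (σ k).2) (b • y) = N' k := fun k => rd_eq hU (hdb k)
  have hrun1 : ∀ k, run U q sc r x (fun _ p => rd U r p (a • x)) k = (σ k).1 := by
    intro k
    rw [← h1 k]
    apply run_congr
    intro k
    rw [h1 k]
    exact (hra k).symm
  have hrun2 : ∀ k, run U q sc r y (fun _ p => rd U r p (b • y)) k = (σ k).2 := by
    intro k
    rw [← h2 k]
    apply run_congr
    intro k
    rw [h2 k]
    exact (hrb k).symm
  have hP : ∀ k, P2 U r (pOf U q sc r x (σ 0).1) (a • x, b • y) k = pOf U q sc r x (σ k).1 := by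
    intro k
    induction k with
    | zero => rfl
    | succ k ih =>
      simp only [P2]
      rw [ih, hra k]
      simp only [hN, Nat.unpair_pair]
      exact hrb k
  refine ⟨pOf U q sc r x (σ 0).1, a • x, b • y, ⟨a, ?_, rfl⟩, ⟨b, ?_, rfl⟩,
    ⟨b * g0 * a⁻¹, ?_, ?_⟩⟩
  · simpa only [hrun1] using ha
  · simpa only [hrun2] using hb
  · have h3 : ∀ k, (Nat.unpair (rd U r (P2 U r (pOf U q sc r x (σ 0).1) (a • x, b • y) k)
        (a • x))).2 = idx k (σ k).1.2 (σ k).2.2 := by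
      intro k
      rw [hP k, hra k]
      simp only [hN, Nat.unpair_pair]
    simp only [h3]
    have h4 : Tendsto (fun k => q (σ k).2.2 * g0 * (q (σ k).1.2)⁻¹) atTop
        (𝓝 (b * g0 * a⁻¹)) := (hb.mul tendsto_const_nhds).mul ha.inv
    refine tendsto_of_tendsto_of_dist h4 ?_
    refine squeeze_zero (fun _ => dist_nonneg) (fun k => (hidx k (σ k).1.2 (σ k).2.2).le) ?_
    exact tendsto_pow_atTop_nhds_zero_of_lt_one (by norm_num) (by norm_num)
  · rw [← mul_smul, inv_mul_cancel_right, mul_smul, hg0]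

/-- Orbits of points with nonmeager stabiliser. -/
theorem countable_orbit {q : ℕ → G} (hq : DenseRange q)
    (hact : Measurable fun p : G × X => p.1 • p.2) [MeasurableSingletonClass X] {x : X}
    (hx : ¬ ∀ᶠ g in residual G, g • x ≠ x) (g0 : G) : ∃ j, q j • x = g0 • x := by
  have h1 : ∃ᶠ g in residual G, g ∈ (univ : Set G) ∧ g • x = x := by
    have : ∃ᶠ g in residual G, g • x = x := by
      rw [Filter.Frequently]
      exact hx
    simpa using this
  have hm : MeasurableSet {g : G | g • x = x} := by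
    have h2 : Measurable (fun g : G => g • x) := hact.comp measurable_prodMk_right
    exact h2 (measurableSet_singleton x)
  obtain ⟨W, hW, ⟨w0, hw0⟩, -, hWx⟩ := freq_open hm isOpen_univ h1
  -- left translates
  have hleft : ∀ h : G, ∀ᶠ g in residual G, h⁻¹ * g ∈ W → (h⁻¹ * g) • x = x := fun h =>
    (tendsto_residual_of_isOpenMap (f := fun g : G => h⁻¹ * g) (continuous_const_mul h⁻¹)
      (Homeomorph.mulLeft h⁻¹).isOpenMap).eventually hWx
  have hop : IsOpen {k : G | g0⁻¹ * (k * w0) ∈ W} := by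
    have hc : Continuous fun k : G => g0⁻¹ * (k * w0) := by fun_prop
    exact hW.preimage hc
  obtain ⟨j, hj⟩ := hq.exists_mem_open hop ⟨g0, by simpa using hw0⟩
  have hop2 : IsOpen {g : G | g0⁻¹ * g ∈ W ∧ (q j)⁻¹ * g ∈ W} := by
    have hc1 : Continuous fun g : G => g0⁻¹ * g := by fun_prop
    have hc2 : Continuous fun g : G => (q j)⁻¹ * g := by fun_prop
    exact (hW.preimage hc1).inter (hW.preimage hc2)
  have hf := freq_of_open hop2 ⟨q j * w0, hj, by simpa using hw0⟩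
  obtain ⟨g, ⟨hg1, hg2⟩, hg3, hg4⟩ := (hf.and_eventually ((hleft g0).and (hleft (q j)))).exists
  refine ⟨j, ?_⟩
  have e1 : g • x = g0 • x := by
    have := hg3 hg1
    rw [mul_smul, inv_smul_eq_iff] at this
    exact this
  have e2 : g • x = q j • x := by
    have := hg4 hg2
    rw [mul_smul, inv_smul_eq_iff] at this
    exact this
  rw [← e2, e1]

theorem ms_smul {x : X} (hx : ∀ᶠ g in residual G, g • x ≠ x) (h : G) :
    ∀ᶠ g in residual G, g • h • x ≠ h • x := by
  have hc : Continuous fun g : G => h⁻¹ * g * h := by fun_prop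
  have ho : IsOpenMap fun g : G => h⁻¹ * g * h :=
    ((Homeomorph.mulLeft h⁻¹).trans (Homeomorph.mulRight h)).isOpenMap
  have := (tendsto_residual_of_isOpenMap hc ho).eventually hx
  filter_upwards [this] with g hg he
  apply hg
  rw [mul_smul, mul_smul, he, inv_smul_smul]

end conn

end Pool.Agent.Helper281.Gr
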