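import Pool.Agent.Helper281.Gr.Basic

set_option autoImplicit false

namespace Pool.Agent.Helper281.Gr

open Set Filter Topology MeasureTheory Pointwise


section measgen

variable {G X : Type} [TopologicalSpace G] [PolishSpace G] [MeasurableSpace G] [BorelSpace G]
  [MeasurableSpace X]


theorem good_compl_j7360 {Q : Set (X × G)} (hQ : MeasurableSet Q)
    (h : ∀ V : Set G, IsOpen V → MeasurableSet {x : X | ∀ᶠ g in residual G, g ∈ V → (x, g) ∈ Q})
    (V : Set G) (hV : IsOpen V) :
    MeasurableSet {x : X | ∀ᶠ g in residual G, g ∈ V → (x, g) ∈ Qᶜ} := by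
  have hset : {x : X | ∀ᶠ g in residual G, g ∈ V → (x, g) ∈ Qᶜ} =
      ⋂ W ∈ {W ∈ TopologicalSpace.countableBasis G | W ⊆ V},
        {x : X | ∀ᶠ g in residual G, g ∈ W → (x, g) ∈ Q}ᶜ := by
    ext x
    simp only [mem_iInter]
    constructor
    · intro hx W hW hxW
      have hop := TopologicalSpace.isOpen_of_mem_countableBasis hW.1
      have hne := TopologicalSpace.nonempty_of_mem_countableBasis hW.1
      refine freq_of_open hop hne ?_
      have hxW' : ∀ᶠ g in residual G, g ∈ W → (x, g) ∈ Q := hxW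
      have hx' : ∀ᶠ g in residual G, g ∈ V → (x, g) ∈ Qᶜ := hx
      filter_upwards [hxW', hx'] with g h1 h2 hg
      exact h2 (hW.2 hg) (h1 hg)
    · intro hx
      by_contra hcon
      have hcon' : ∃ᶠ g in residual G, g ∈ V ∧ (x, g) ∈ Q := by
        intro hh
        apply hcon
        show ∀ᶠ g in residual G, g ∈ V → (x, g) ∈ Qᶜ
        filter_upwards [hh] with g h1 h2 h3
        exact h1 ⟨h2, h3⟩
      have hsec : MeasurableSet {g : G | (x, g) ∈ Q} := hQ.preimage measurable_prodMk_left
      obtain ⟨W, hWo, hWne, hWV, hW⟩ := freq_open hsec hV hcon'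
      obtain ⟨y, hy⟩ := hWne
      obtain ⟨W', hW'b, hyW', hW'W⟩ :=
        (TopologicalSpace.isBasis_countableBasis G).exists_subset_of_mem_open hy hWo
      refine hx W' ⟨hW'b, hW'W.trans hWV⟩ ?_
      exact gen_and_freq hW hW'W
  rw [hset]
  apply MeasurableSet.biInter ((TopologicalSpace.countable_countableBasis G).mono (fun W hW => hW.1))
  intro W hW
  exact (h W (TopologicalSpace.isOpen_of_mem_countableBasis hW.1)).compl

theorem good_all_j7360 {Q : Set (X × G)} (hQ : MeasurableSet Q) (V : Set G) (hV : IsOpen V) :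
    MeasurableSet {x : X | ∀ᶠ g in residual G, g ∈ V → (x, g) ∈ Q} := by
  revert V
  refine MeasurableSpace.induction_on_inter
    (C := fun Q _ => ∀ V : Set G, IsOpen V →
      MeasurableSet {x : X | ∀ᶠ g in residual G, g ∈ V → (x, g) ∈ Q})
    generateFrom_prod.symm isPiSystem_prod ?_ ?_ ?_ ?_ Q hQ
  · intro V _
    have : {x : X | ∀ᶠ g in residual G, g ∈ V → (x, g) ∈ (∅ : Set (X × G))} =
        {x : X | ∀ᶠ g in residual G, g ∉ V} := by
      ext x
      simp
    rw [this]
    exact MeasurableSet.const _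
  · rintro t ⟨A, hA, B, hB, rfl⟩ V _
    have : {x : X | ∀ᶠ g in residual G, g ∈ V → (x, g) ∈ A ×ˢ B} =
        (A ∩ {x : X | ∀ᶠ g in residual G, g ∈ V → g ∈ B}) ∪
        (Aᶜ ∩ {x : X | ∀ᶠ g in residual G, g ∉ V}) := by
      ext x
      by_cases hx : x ∈ A
      · simp [hx]
      · simp [hx]
    rw [this]
    exact (MeasurableSet.inter hA (MeasurableSet.const _)).union
      ((MeasurableSet.compl hA).inter (MeasurableSet.const _))
  · intro t htm ht V hV
    exact good_compl_j7360 htm ht V hV
  · intro f _ hm hf V hV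
    have hint : ∀ V : Set G, IsOpen V →
        MeasurableSet {x : X | ∀ᶠ g in residual G, g ∈ V → (x, g) ∈ ⋂ i, (f i)ᶜ} := by
      intro V hV
      have : {x : X | ∀ᶠ g in residual G, g ∈ V → (x, g) ∈ ⋂ i, (f i)ᶜ} =
          ⋂ i, {x : X | ∀ᶠ g in residual G, g ∈ V → (x, g) ∈ (f i)ᶜ} := by
        ext x
        rw [mem_iInter]
        constructor
        · intro hx i
          have hx' : ∀ᶠ g in residual G, g ∈ V → (x, g) ∈ ⋂ i, (f i)ᶜ := hx
          exact hx'.mono (fun g hg hgV => mem_iInter.1 (hg hgV) i)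
        · intro hx
          have hx' : ∀ i, ∀ᶠ g in residual G, g ∈ V → (x, g) ∈ (f i)ᶜ := hx
          have := eventually_countable_forall.2 hx'
          exact this.mono (fun g hg hgV => mem_iInter.2 (fun i => hg i hgV))
      rw [this]
      exact MeasurableSet.iInter (fun i => good_compl_j7360 (hm i) (hf i) V hV)
    have hmi : MeasurableSet (⋂ i, (f i)ᶜ) := MeasurableSet.iInter (fun i => (hm i).compl)
    have hfin := good_compl_j7360 hmi hint V hV
    have he : (⋂ i, (f i)ᶜ)ᶜ = ⋃ i, f i := by
      rw [compl_iInter]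
      simp
    rw [he] at hfin
    exact hfin

/-- The generic quantifier preserves measurability (Montgomery, Novikov). -/
theorem measurableSet_gen {P : X → G → Prop} (hP : MeasurableSet {p : X × G | P p.1 p.2})
    {V : Set G} (hV : IsOpen V) :
    MeasurableSet {x : X | ∀ᶠ g in residual G, g ∈ V → P x g} :=
  good_all_j7360 hP V hV


end measgen

end Pool.Agent.Helper281.Gr
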