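import Pool.Agent.Helper281.Gr.Final

set_option autoImplicit false

namespace Pool.Agent.Helper281.Gr

open Set Filter Topology MeasureTheory Pointwise

theorem exists_separating (X : Type) [TopologicalSpace X] [PolishSpace X] [MeasurableSpace X]
    [BorelSpace X] : ∃ B : ℕ → Set X, (∀ i, MeasurableSet (B i)) ∧
      ∀ x y : X, (∀ i, x ∈ B i ↔ y ∈ B i) → x = y := by
  obtain ⟨S, hSc, hSm, hS⟩ :=
    MeasurableSpace.CountablySeparated.countably_separated (α := X) |>.exists_countable_separating
  rcases S.eq_empty_or_nonempty with rfl | hne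
  · refine ⟨fun _ => ∅, fun _ => MeasurableSet.empty, fun x y _ => ?_⟩
    exact hS x trivial y trivial (by simp)
  · obtain ⟨B, hB⟩ := hSc.exists_eq_range hne
    refine ⟨B, fun i => hSm _ (hB ▸ mem_range_self i), fun x y h => ?_⟩
    refine hS x trivial y trivial ?_
    rw [hB]
    rintro _ ⟨i, rfl⟩
    exact h i

theorem graphic (G : Type) [Group G] [TopologicalSpace G] [IsTopologicalGroup G] [PolishSpace G]
    [MeasurableSpace G] [BorelSpace G]
    (X : Type) [TopologicalSpace X] [PolishSpace X] [MeasurableSpace X] [BorelSpace X]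
    [MulAction G X] (hact : Measurable (fun p : G × X => p.1 • p.2)) :
    ∃ Γ : SimpleGraph X,
      MeasurableSet {p : X × X | Γ.Adj p.1 p.2} ∧
      ∀ x y : X, Γ.Reachable x y ↔ ∃ g : G, g • x = y := by
  obtain ⟨U, hU⟩ := exists_isNb (G := G)
  obtain ⟨B, hB, hsep⟩ := exists_separating X
  have hgen : ∀ P : X → G → Prop, MeasurableSet {p : X × G | P p.1 p.2} → ∀ V : Set G, IsOpen V →
      MeasurableSet {x : X | ∀ᶠ g in residual G, g ∈ V → P x g} :=
    fun P hP V hV => measurableSet_gen hP hV
  have hgood : ∀ S : X → ℕ, Measurable S → ∀ x : X,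
      ∀ᶠ h in residual G, ∃ m, ∀ᶠ g in residual G, g ∈ U m → S (g • h • x) = S (h • x) :=
    fun S hS x => eventually_good hU hact hS x
  have hbit := fun (ν : X → ℕ) (hν : Measurable ν) =>
    bit_lemma hgen hU hact B hB hsep ν hν
  have hnl := fun p : ℕ => number_lemma hU hact hgen hgood hbit (p + 1)
  choose r hr hnum using hnl
  let q : ℕ → G := TopologicalSpace.denseSeq G
  have hq : DenseRange q := TopologicalSpace.denseRange_denseSeq G
  obtain ⟨sc, hsc⟩ := exists_sc hU q
  let R : X → X → Prop := fun x y =>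
    (∃ j, q j • x = y) ∨ R1 U q sc r x y ∨ ∃ p0, R2 U q r p0 x y
  have hRE : ∀ x y, R x y → ∃ g : G, g • x = y := by
    rintro x y (⟨j, hj⟩ | ⟨a, -, ha⟩ | ⟨p0, a, -, ha⟩)
    · exact ⟨_, hj⟩
    · exact ⟨a, ha⟩
    · exact ⟨a, ha⟩
  have hRm : MeasurableSet {p : X × X | R p.1 p.2} := by
    have h0 : MeasurableSet {p : X × X | ∃ j, q j • p.1 = p.2} := by
      have : {p : X × X | ∃ j, q j • p.1 = p.2} = ⋃ j, {p : X × X | q j • p.1 = p.2} := by
        ext p
        simp
      rw [this]
      refine MeasurableSet.iUnion fun j => measurableSet_eq_fun ?_ measurable_snd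
      exact hact.comp (measurable_const.prodMk measurable_fst)
    have h1 : MeasurableSet {p : X × X | R1 U q sc r p.1 p.2} := by
      refine measurableSet_limit hact (Z := X × X)
        (f := fun k z => q (run U q sc r z.1 (fun _ p => rd U r p z.2) k).2) ?_ measurable_fst
        measurable_snd
      intro k
      exact (mf_run hgen hU hact hr q sc k).measurable (fun s : List (ℕ × ℕ) × ℕ => q s.2)
    have h2 : ∀ p0, MeasurableSet {p : X × X | R2 U q r p0 p.1 p.2} := by
      intro p0
      refine measurableSet_limit hact (Z := X × X)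
        (f := fun k z => q (Nat.unpair (rd U r (P2 U r p0 (z.1, z.2) k) z.1)).2) ?_ measurable_fst
        measurable_snd
      intro k
      exact (mf_J2 hgen hU hact hr p0 k).measurable q
    have : {p : X × X | R p.1 p.2} = {p : X × X | ∃ j, q j • p.1 = p.2} ∪
        ({p : X × X | R1 U q sc r p.1 p.2} ∪ ⋃ p0, {p : X × X | R2 U q r p0 p.1 p.2}) := by
      ext p
      simp [R]
    rw [this]
    exact h0.union (h1.union (MeasurableSet.iUnion h2))
  let Γ : SimpleGraph X := SimpleGraph.fromRel R
  have hadj : ∀ x y, R x y → Γ.Reachable x y := by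
    intro x y h
    by_cases hxy : x = y
    · rw [hxy]
    · exact SimpleGraph.Adj.reachable ((SimpleGraph.fromRel_adj R x y).2 ⟨hxy, Or.inl h⟩)
  refine ⟨Γ, ?_, ?_⟩
  · have : {p : X × X | Γ.Adj p.1 p.2} = {p : X × X | p.1 = p.2}ᶜ ∩
        ({p : X × X | R p.1 p.2} ∪ Prod.swap ⁻¹' {p : X × X | R p.1 p.2}) := by
      ext p
      simp [Γ, SimpleGraph.fromRel_adj]
    rw [this]
    exact (measurableSet_eq_fun measurable_fst measurable_snd).compl.inter
      (hRm.union (measurable_swap hRm))
  · intro x y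
    constructor
    · rintro ⟨w⟩
      induction w with
      | nil => exact ⟨1, one_smul _ _⟩
      | cons h _ ih =>
        obtain ⟨g, hg⟩ := ih
        rcases (SimpleGraph.fromRel_adj R _ _).1 h with ⟨-, h1 | h1⟩
        · obtain ⟨g', hg'⟩ := hRE _ _ h1
          exact ⟨g * g', by rw [mul_smul, hg', hg]⟩
        · obtain ⟨g', hg'⟩ := hRE _ _ h1
          exact ⟨g * g'⁻¹, by rw [mul_smul, ← hg', inv_smul_smul, hg]⟩
    · rintro ⟨g0, hg0⟩
      by_cases hx : ∀ᶠ g in residual G, g • x ≠ x
      · have hy : ∀ᶠ g in residual G, g • y ≠ y := by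
          rw [← hg0]
          exact ms_smul hx g0
        obtain ⟨p0, z1, z2, h1, h2, h3⟩ := protocol hU hact hq hsc hr hnum hx hy hg0
        exact ((hadj _ _ (Or.inr (Or.inl h1))).trans
          (hadj _ _ (Or.inr (Or.inr ⟨p0, h3⟩)))).trans (hadj _ _ (Or.inr (Or.inl h2))).symm
      · obtain ⟨j, hj⟩ := countable_orbit hq hact hx g0
        rw [← hg0, ← hj]
        exact hadj _ _ (Or.inl ⟨j, rfl⟩)

end Pool.Agent.Helper281.Gr
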