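import Pool.Agent.Helper281.Gr.Basic

set_option autoImplicit false

namespace Pool.Agent.Helper281.Gr

open Set Filter Topology MeasureTheory Pointwise


section run

variable {G X : Type} [Group G] [TopologicalSpace G] [MulAction G X]

/-- Near `w` (along the orbit) the function `r p` is generically equal to `N`. -/
def dec (U : ℕ → Set G) (r : ℕ → X → ℕ) (p N : ℕ) (w : X) : Prop :=
  ∃ m, ∀ᶠ g in residual G, g ∈ U m → r p (g • w) = N

open Classical in
/-- The number read at scale `p` at the point `w`. -/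
noncomputable def rd (U : ℕ → Set G) (r : ℕ → X → ℕ) (p : ℕ) (w : X) : ℕ :=
  sInf {N | dec U r p N w}

/-- The admissible scales at a stage of the run. -/
def okp (U : ℕ → Set G) (q : ℕ → G) (sc : ℕ → ℕ → ℕ) (r : ℕ → X → ℕ) (x : X)
    (L : List (ℕ × ℕ)) (j p : ℕ) : Prop :=
  0 < p ∧ sc L.length j ≤ p ∧ (∀ e ∈ L, e.1 < p) ∧
    ∀ e ∈ L, ∀ᶠ g in residual G, g ∈ U (p - 1) → r e.1 (g • q j • x) = e.2

noncomputable def pOf (U : ℕ → Set G) (q : ℕ → G) (sc : ℕ → ℕ → ℕ) (r : ℕ → X → ℕ) (x : X)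
    (s : List (ℕ × ℕ) × ℕ) : ℕ :=
  sInf {p | okp U q sc r x s.1 s.2 p}

noncomputable def jOf (U : ℕ → Set G) (q : ℕ → G) (r : ℕ → X → ℕ) (x : X) (p N j : ℕ) : ℕ :=
  sInf {j' | q j' * (q j)⁻¹ ∈ U (p + 1) ∧ dec U r p N (q j' • x)}

/-- The run from `x` with numbers `F k p` (which may depend on the scale `p`). -/
noncomputable def run (U : ℕ → Set G) (q : ℕ → G) (sc : ℕ → ℕ → ℕ) (r : ℕ → X → ℕ) (x : X)
    (F : ℕ → ℕ → ℕ) : ℕ → List (ℕ × ℕ) × ℕ
  | 0 => ([], 0)
  | k + 1 =>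
    ((pOf U q sc r x (run U q sc r x F k), F k (pOf U q sc r x (run U q sc r x F k))) ::
        (run U q sc r x F k).1,
      jOf U q r x (pOf U q sc r x (run U q sc r x F k))
        (F k (pOf U q sc r x (run U q sc r x F k))) (run U q sc r x F k).2)

end run

section runlemma

variable {G X : Type} [Group G] [TopologicalSpace G] [IsTopologicalGroup G] [PolishSpace G]
  [MeasurableSpace G] [BorelSpace G] [MeasurableSpace X] [MulAction G X]

theorem dec_of_gen_7396 {U : ℕ → Set G} (hU : IsNb U) {r : ℕ → X → ℕ} {p M : ℕ} {w : X}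
    {V : Set G} (hV : IsOpen V) (hgen : ∀ᶠ g in residual G, g ∈ V → r p (g • w) = M)
    {u : G} (hu : u ∈ V) : dec U r p M (u • w) := by
  obtain ⟨m, hm⟩ := hU.exists_mul_subset hV hu
  refine ⟨m, ?_⟩
  filter_upwards [gen_mul_right u hgen] with g hg hgm
  rw [← mul_smul]
  exact hg (hm g hgm)

theorem stab_7396 {x : X} (hx : ∀ᶠ g in residual G, g • x ≠ x) (a : G) :
    ∀ᶠ g in residual G, g • (a • x) ≠ a • x := by
  have h1 : ∀ᶠ g in residual G, (a⁻¹ * (g * a)) • x ≠ x := by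
    have h2 := (tendsto_residual_of_isOpenMap
      (f := ((Homeomorph.mulRight a).trans (Homeomorph.mulLeft a⁻¹) : G ≃ₜ G))
      ((Homeomorph.mulRight a).trans (Homeomorph.mulLeft a⁻¹)).continuous
      ((Homeomorph.mulRight a).trans (Homeomorph.mulLeft a⁻¹)).isOpenMap).eventually hx
    exact h2
  filter_upwards [h1] with g hg heq
  apply hg
  rw [mul_smul, mul_smul, heq, inv_smul_smul]

theorem jOf_spec_7396 {U : ℕ → Set G} (hU : IsNb U)
    (hact : Measurable fun p : G × X => p.1 • p.2)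
    {q : ℕ → G} (hq : DenseRange q)
    {r : ℕ → X → ℕ} (hr : ∀ p, Measurable (r p))
    (hnum : ∀ p, ∀ w : X, (∀ᶠ g in residual G, g • w ≠ w) →
      ∀ N, ∃ᶠ g in residual G, g ∈ U (p + 1) ∧ r p (g • w) = N)
    {x : X} (hx : ∀ᶠ g in residual G, g • x ≠ x) (p N j : ℕ) :
    q (jOf U q r x p N j) * (q j)⁻¹ ∈ U (p + 1) ∧ dec U r p N (q (jOf U q r x p N j) • x) := by
  have hne : {j' | q j' * (q j)⁻¹ ∈ U (p + 1) ∧ dec U r p N (q j' • x)}.Nonempty := by
    obtain ⟨w, hw⟩ : ∃ w, w = q j • x := ⟨_, rfl⟩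
    have h1 := hnum p w (by rw [hw]; exact stab_7396 hx (q j)) N
    have hmeas : MeasurableSet {g : G | r p (g • w) = N} := by
      have h2 : Measurable fun g : G => r p (g • w) :=
        (hr p).comp (hact.comp (measurable_id.prodMk measurable_const))
      exact h2 (measurableSet_singleton N)
    obtain ⟨W, hWo, ⟨w0, hw0⟩, hWs, hWg⟩ := freq_open hmeas (hU.isOpen (p + 1)) h1
    have hO : IsOpen {h : G | h * (q j)⁻¹ ∈ W} := hWo.preimage (continuous_mul_const _)
    have hOn : {h : G | h * (q j)⁻¹ ∈ W}.Nonempty := ⟨w0 * q j, by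
      show w0 * q j * (q j)⁻¹ ∈ W
      rw [mul_inv_cancel_right]; exact hw0⟩
    obtain ⟨j', hj'⟩ := hq.exists_mem_open hO hOn
    have hj2 : q j' * (q j)⁻¹ ∈ W := hj'
    refine ⟨j', hWs hj2, ?_⟩
    have h3 := dec_of_gen_7396 hU hWo hWg hj2
    rw [hw, ← mul_smul, inv_mul_cancel_right] at h3
    exact h3
  exact Nat.sInf_mem hne

theorem pOf_spec_7396 {U : ℕ → Set G} (hU : IsNb U) {q : ℕ → G} {sc : ℕ → ℕ → ℕ}
    {r : ℕ → X → ℕ} {x : X} (s : List (ℕ × ℕ) × ℕ)
    (hI : ∀ e ∈ s.1, dec U r e.1 e.2 (q s.2 • x)) :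
    okp U q sc r x s.1 s.2 (pOf U q sc r x s) := by
  have hne : {p | okp U q sc r x s.1 s.2 p}.Nonempty := by
    have h1 : ∀ᶠ p in atTop, ∀ e ∈ {e | e ∈ s.1}, e.1 < p ∧
        ∀ᶠ g in residual G, g ∈ U (p - 1) → r e.1 (g • q s.2 • x) = e.2 := by
      rw [Filter.eventually_all_finite (List.finite_toSet s.1)]
      intro e he
      obtain ⟨m, hm⟩ := hI e he
      filter_upwards [eventually_gt_atTop e.1, eventually_ge_atTop (m + 1)] with p hp1 hp2
      refine ⟨hp1, ?_⟩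
      exact gen_and_freq hm (hU.anti (by omega))
    obtain ⟨p, ⟨hp1, hp2⟩, hp3⟩ := ((h1.and (eventually_gt_atTop 0)).and
      (eventually_ge_atTop (sc s.1.length s.2))).exists
    exact ⟨p, hp2, hp3, fun e he => (hp1 e he).1, fun e he => (hp1 e he).2⟩
  exact Nat.sInf_mem hne

/-- The run lemma: for every sequence of numbers the run converges to some `a` and the numbers
are read off correctly at the limit point. -/
theorem run_lemma {U : ℕ → Set G} (hU : IsNb U)
    (hact : Measurable fun p : G × X => p.1 • p.2)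
    {q : ℕ → G} (hq : DenseRange q) {sc : ℕ → ℕ → ℕ}
    (hsc : ∀ j : ℕ → ℕ, (∀ k, q (j (k + 1)) * (q (j k))⁻¹ ∈ U (sc k (j k))) →
      ∃ a, Tendsto (fun k => q (j k)) atTop (𝓝 a))
    {r : ℕ → X → ℕ} (hr : ∀ p, Measurable (r p))
    (hnum : ∀ p, ∀ w : X, (∀ᶠ g in residual G, g • w ≠ w) →
      ∀ N, ∃ᶠ g in residual G, g ∈ U (p + 1) ∧ r p (g • w) = N)
    {x : X} (hx : ∀ᶠ g in residual G, g • x ≠ x) (N : ℕ → ℕ) :
    ∃ a, Tendsto (fun k => q (run U q sc r x (fun k _ => N k) k).2) atTop (𝓝 a) ∧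
      ∀ k, dec U r (pOf U q sc r x (run U q sc r x (fun k _ => N k) k)) (N k) (a • x) := by
  obtain ⟨R, hR⟩ : ∃ R, R = run U q sc r x (fun k _ => N k) := ⟨_, rfl⟩
  rw [← hR]
  obtain ⟨P, hP⟩ : ∃ P : ℕ → ℕ, P = fun k => pOf U q sc r x (R k) := ⟨_, rfl⟩
  have hPk : ∀ k, pOf U q sc r x (R k) = P k := fun k => by rw [hP]
  have hR1 : ∀ k, (R (k + 1)).1 = (P k, N k) :: (R k).1 := by
    intro k
    rw [← hPk, hR]
    rfl
  have hR2 : ∀ k, (R (k + 1)).2 = jOf U q r x (P k) (N k) (R k).2 := by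
    intro k
    rw [← hPk, hR]
    rfl
  have hR0 : R 0 = ([], 0) := by rw [hR]; rfl
  have hlen : ∀ k, (R k).1.length = k := by
    intro k
    induction k with
    | zero => rw [hR0]; rfl
    | succ k ih => rw [hR1, List.length_cons, ih]
  have hj : ∀ k, q (R (k + 1)).2 * (q (R k).2)⁻¹ ∈ U (P k + 1) ∧
      dec U r (P k) (N k) (q (R (k + 1)).2 • x) := by
    intro k
    rw [hR2]
    exact jOf_spec_7396 hU hact hq hr hnum hx _ _ _
  have hinv : ∀ k, ∀ e ∈ (R k).1, dec U r e.1 e.2 (q (R k).2 • x) := by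
    intro k
    induction k with
    | zero => intro e he; rw [hR0] at he; simp at he
    | succ k ih =>
      intro e he
      rw [hR1, List.mem_cons] at he
      rcases he with rfl | he
      · exact (hj k).2
      · obtain ⟨ok1, ok2, ok3, ok4⟩ := pOf_spec_7396 (sc := sc) hU (R k) ih
        rw [hPk] at ok1 ok2 ok3 ok4
        have hu : q (R (k + 1)).2 * (q (R k).2)⁻¹ ∈ U (P k - 1) :=
          hU.anti (by omega) (hj k).1
        have h3 := dec_of_gen_7396 hU (hU.isOpen _) (ok4 e he) hu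
        rw [← mul_smul, inv_mul_cancel_right] at h3
        exact h3
  have hok : ∀ k, okp U q sc r x (R k).1 (R k).2 (P k) := by
    intro k
    have := pOf_spec_7396 (sc := sc) hU (R k) (hinv k)
    rwa [hPk] at this
  have hlt : ∀ k, P k < P (k + 1) := by
    intro k
    have := (hok (k + 1)).2.2.1 (P k, N k) (by rw [hR1]; exact List.mem_cons_self)
    exact this
  obtain ⟨a, ha⟩ := hsc (fun k => (R k).2) (by
    intro k
    have h1 := (hok k).2.1
    rw [hlen] at h1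
    exact hU.anti (by omega) (hj k).1)
  refine ⟨a, ha, ?_⟩
  have h5 : ∀ k l, k ≤ l → ∀ h ∈ U (P l), h * q (R l).2 * (q (R k).2)⁻¹ ∈ U (P k) := by
    intro k l hkl
    induction l, hkl using Nat.le_induction with
    | base => intro h hh; rw [mul_inv_cancel_right]; exact hh
    | succ l hkl ih =>
      intro h hh
      have h1 : h ∈ U (P l + 1) := hU.anti (hlt l) hh
      have h2 := ih _ (hU.mul_mem _ _ _ h1 (hj l).1)
      have h3 : h * (q (R (l + 1)).2 * (q (R l).2)⁻¹) * q (R l).2 * (q (R k).2)⁻¹ =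
          h * q (R (l + 1)).2 * (q (R k).2)⁻¹ := by group
      rw [h3] at h2
      exact h2
  have h6 : ∀ k, a * (q (R k).2)⁻¹ ∈ U (P k - 1) := by
    intro k
    have hk0 := (hok k).1
    have hnh : {y : G | a * y⁻¹ ∈ U (P k)} ∈ 𝓝 a := by
      apply IsOpen.mem_nhds
      · exact (hU.isOpen _).preimage (continuous_const.mul continuous_inv)
      · show a * a⁻¹ ∈ U (P k)
        rw [mul_inv_cancel]; exact hU.one_mem _
    obtain ⟨l, hl1, hl2⟩ := ((ha.eventually hnh).and (eventually_ge_atTop k)).exists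
    have h1 : a * (q (R l).2)⁻¹ ∈ U (P k) := hl1
    have h2 := h5 k l hl2 1 (hU.one_mem _)
    rw [one_mul] at h2
    have h3 : P k = (P k - 1) + 1 := by omega
    rw [h3] at h1 h2
    have h4 := hU.mul_mem _ _ _ h1 h2
    have h7 : a * (q (R l).2)⁻¹ * (q (R l).2 * (q (R k).2)⁻¹) = a * (q (R k).2)⁻¹ := by group
    rw [h7] at h4
    exact h4
  intro k
  rw [hPk]
  have h7 := (hok (k + 1)).2.2.2 (P k, N k) (by rw [hR1]; exact List.mem_cons_self)
  have h8 := dec_of_gen_7396 hU (hU.isOpen _) h7 (h6 (k + 1))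
  rw [← mul_smul, inv_mul_cancel_right] at h8
  exact h8

end runlemma

end Pool.Agent.Helper281.Gr
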